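import Mathlib
import Pool.Agent.H765.DB.Def

/-! Satellites: definitions. -/

namespace Pool.Agent.H765.ST

open PowerSeries GK

noncomputable section

/-- The coloured skein of a pattern (a knot in the solid torus) with winding number `w`. The
pattern with colour `N` is the combination `∑ k, coef N k • (core with colour k)` in the skein
module of the solid torus, so that the satellite with companion `K` has the coloured Jones
function `sat`. At `h = 0` the pattern only counts through its homotopy class, the `w`-th power of
the core: there the combination is the expansion of the character `χ_N (t ^ w)` in the characters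
`χ_k (t)`, where `χ_k (e ^ x)` is `unknotJ k` with the variable `x`. -/
structure Pattern (w : ℤ) where
  coef : ℕ → ℕ →₀ ℚ⟦X⟧
  adams : ∀ N : ℕ, ((coef N).sum fun k c => C (constantCoeff c) * unknotJ k) =
    rescale (w : ℚ) (unknotJ N)

/-- The coloured Jones function of the satellite with pattern `P` and companion `J`. -/
def Pattern.sat {w : ℤ} (P : Pattern w) (J : ℤ → ℚ⟦X⟧) (N : ℕ) : ℚ⟦X⟧ :=
  (P.coef N).sum fun k c => c * J k

/-- Properties of the coloured Jones function of any knot (framing zero): `J` is odd in the
colour, `J(1) = 1`, the coefficients of its expansion are polynomials in the colour and it agrees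
with that of the unknot up to order one. -/
structure KnotFn (J : ℤ → ℚ⟦X⟧) : Prop where
  odd : ∀ N, J (-N) = - J N
  one : J 1 = 1
  poly : ∀ n, ∃ P : Polynomial ℚ, ∀ N : ℤ, coeff n (J N) = P.eval (N : ℚ)
  two : ∀ N, X ^ 2 ∣ J N - unknotJ N

/-- The coloured Jones function of the Whitehead double with companion `J`, `m` full twists and
clasp `ε = ± 1`: the boundary of the plumbing of the annulus with core `J` and `m` full twists and
the unknotted annulus with `ε` full twists (Habiro's formula). -/
def doubleJ (m ε : ℤ) (J : ℤ → ℚ⟦X⟧) : ℤ → ℚ⟦X⟧ := DB.plumbJ J m unknotJ ε

end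

end Pool.Agent.H765.ST
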