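import Mathlib
import Pool.Agent.H765.DB.Graph

/-! Functions of the colour whose coefficients are polynomials. -/

namespace Pool.Agent.H765.ST

open PowerSeries GK

noncomputable section

/-- every coefficient of `f N` is a polynomial function of `N` -/
def PF (f : ℤ → ℚ⟦X⟧) : Prop :=
  ∀ n, ∃ P : Polynomial ℚ, ∀ N : ℤ, coeff n (f N) = P.eval (N : ℚ)

theorem PF.congr {f g : ℤ → ℚ⟦X⟧} (hf : PF f) (h : ∀ N, f N = g N) : PF g := by
  have : f = g := funext h
  rwa [← this]

theorem PF.add {f g : ℤ → ℚ⟦X⟧} (hf : PF f) (hg : PF g) : PF (fun N => f N + g N) := by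
  intro n
  obtain ⟨P, hP⟩ := hf n
  obtain ⟨Q, hQ⟩ := hg n
  exact ⟨P + Q, fun N => by rw [map_add, hP, hQ, Polynomial.eval_add]⟩

theorem PF.sub {f g : ℤ → ℚ⟦X⟧} (hf : PF f) (hg : PF g) : PF (fun N => f N - g N) := by
  intro n
  obtain ⟨P, hP⟩ := hf n
  obtain ⟨Q, hQ⟩ := hg n
  exact ⟨P - Q, fun N => by rw [map_sub, hP, hQ, Polynomial.eval_sub]⟩

theorem coeff_mul_range (n : ℕ) (f g : ℚ⟦X⟧) :
    coeff n (f * g) = ∑ k ∈ Finset.range (n + 1), coeff k f * coeff (n - k) g := by
  rw [coeff_mul]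
  exact Finset.Nat.sum_antidiagonal_eq_sum_range_succ (fun i j => coeff i f * coeff j g) n

theorem PF.mul {f g : ℤ → ℚ⟦X⟧} (hf : PF f) (hg : PF g) : PF (fun N => f N * g N) := by
  choose P hP using hf
  choose Q hQ using hg
  intro n
  refine ⟨∑ k ∈ Finset.range (n + 1), P k * Q (n - k), fun N => ?_⟩
  rw [coeff_mul_range, Polynomial.eval_finsetSum]
  apply Finset.sum_congr rfl
  intro k _
  rw [hP, hQ, Polynomial.eval_mul]

theorem PF.const (a : ℚ⟦X⟧) : PF (fun _ => a) := fun n =>
  ⟨Polynomial.C (coeff n a), fun N => by rw [Polynomial.eval_C]⟩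

theorem PF.C_eval (Q : Polynomial ℚ) : PF (fun N => C (Q.eval (N : ℚ))) := by
  intro n
  rcases Nat.eq_zero_or_pos n with rfl | h
  · exact ⟨Q, fun N => by simp⟩
  · exact ⟨0, fun N => by rw [coeff_C, if_neg h.ne', Polynomial.eval_zero]⟩

theorem PF.hexp (Q : Polynomial ℚ) : PF (fun N => hexp (Q.eval (N : ℚ))) := by
  intro n
  refine ⟨Q ^ n * Polynomial.C (1 / (n.factorial : ℚ)), fun N => ?_⟩
  rw [coeff_hexp, Polynomial.eval_mul, Polynomial.eval_pow, Polynomial.eval_C]

theorem PF.hexp_lin (c : ℚ) : PF (fun N => GK.hexp (c * N)) :=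
  (PF.hexp (Polynomial.C c * Polynomial.X)).congr fun N => by
    rw [Polynomial.eval_mul, Polynomial.eval_C, Polynomial.eval_X]

theorem PF.comp {f : ℤ → ℚ⟦X⟧} (hf : PF f) (a b : ℤ) : PF (fun N => f (a * N + b)) := by
  intro n
  obtain ⟨P, hP⟩ := hf n
  refine ⟨P.comp (Polynomial.C (a : ℚ) * Polynomial.X + Polynomial.C (b : ℚ)), fun N => ?_⟩
  rw [hP, Polynomial.eval_comp, Polynomial.eval_add, Polynomial.eval_mul, Polynomial.eval_C,
    Polynomial.eval_X, Polynomial.eval_C]
  push_cast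
  rfl

theorem PF.inv {f : ℤ → ℚ⟦X⟧} (hf : PF f) (h1 : ∀ N, constantCoeff (f N) = 1) :
    PF (fun N => (f N)⁻¹) := by
  intro n
  induction n using Nat.strong_induction_on with
  | _ n ih =>
    rcases Nat.eq_zero_or_pos n with rfl | h
    · refine ⟨1, fun N => ?_⟩
      rw [coeff_inv, if_pos rfl, h1]
      simp
    · choose P hP using hf
      have ih' : ∀ m, ∃ Q : Polynomial ℚ, m < n → ∀ N : ℤ, coeff m (f N)⁻¹ = Q.eval (N : ℚ) := by
        intro m
        by_cases hm : m < n
        · obtain ⟨Q, hQ⟩ := ih m hm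
          exact ⟨Q, fun _ => hQ⟩
        · exact ⟨0, fun h => absurd h hm⟩
      choose Q hQ using ih'
      refine ⟨- ∑ x ∈ Finset.HasAntidiagonal.antidiagonal n, if x.2 < n then P x.1 * Q x.2 else 0, fun N => ?_⟩
      rw [coeff_inv, if_neg h.ne', h1, Polynomial.eval_neg, Polynomial.eval_finsetSum, inv_one,
        neg_one_mul]
      congr 1
      apply Finset.sum_congr rfl
      intro x _
      split_ifs with hx
      · rw [hP, hQ x.2 hx, Polynomial.eval_mul]
      · simp

/-- a polynomial family of series is determined by its values at odd positive integers -/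
theorem PF.ext_odd {f g : ℤ → ℚ⟦X⟧} (hf : PF f) (hg : PF g)
    (h : ∀ k : ℕ, f (2 * k + 1) = g (2 * k + 1)) : f = g := by
  funext N
  ext n
  obtain ⟨P, hP⟩ := hf n
  obtain ⟨Q, hQ⟩ := hg n
  have : P = Q := by
    apply Polynomial.eq_of_infinite_eval_eq
    have hi : Set.Infinite (Set.range fun k : ℕ => ((2 * k + 1 : ℕ) : ℚ)) := by
      apply Set.infinite_range_of_injective
      intro a b hab
      have hab' : ((2 * a + 1 : ℕ) : ℚ) = ((2 * b + 1 : ℕ) : ℚ) := hab
      have : (2 * a + 1 : ℕ) = 2 * b + 1 := by exact_mod_cast hab'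
      omega
    refine hi.mono ?_
    rintro _ ⟨k, rfl⟩
    have h1 := congrArg (coeff n) (h k)
    rw [hP, hQ] at h1
    push_cast at h1
    simpa using h1
  rw [hP, hQ, this]

/-- the operator `Q(x+1) - Q(x-1)` is surjective -/
theorem exists_diff (S : Polynomial ℚ) : ∃ Q : Polynomial ℚ,
    ∀ x : ℚ, Q.eval (x + 1) - Q.eval (x - 1) = S.eval x := by
  induction S using Polynomial.induction_on' with
  | add p q hp hq =>
    obtain ⟨P, hP⟩ := hp
    obtain ⟨Q, hQ⟩ := hq
    refine ⟨P + Q, fun x => ?_⟩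
    rw [Polynomial.eval_add, Polynomial.eval_add, Polynomial.eval_add, ← hP, ← hQ]
    ring
  | monomial n a =>
    refine ⟨Polynomial.C (a * 2 ^ n / (n + 1)) *
      (Polynomial.bernoulli (n + 1)).comp (Polynomial.C (1 / 2) * (Polynomial.X + 1)),
      fun x => ?_⟩
    have e1 : (1 / 2 * (x + 1 + 1) : ℚ) = 1 + 1 / 2 * x := by ring
    have e2 : (1 / 2 * (x - 1 + 1) : ℚ) = 1 / 2 * x := by ring
    simp only [Polynomial.eval_mul, Polynomial.eval_C, Polynomial.eval_comp, Polynomial.eval_add,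
      Polynomial.eval_X, Polynomial.eval_one, Polynomial.eval_monomial]
    rw [e1, e2, Polynomial.bernoulli_eval_one_add]
    have hn : ((n : ℚ) + 1) ≠ 0 := by positivity
    have h2 : (2 : ℚ) ^ n ≠ 0 := by positivity
    rw [show n + 1 - 1 = n from rfl, mul_pow, one_div, inv_pow]
    push_cast
    field_simp
    ring

/-- an odd function on `ℤ` with a polynomial difference is a polynomial -/
theorem poly_of_diff {a : ℤ → ℚ} (ha : ∀ m, a (-m) = - a m) {S : Polynomial ℚ}
    (hS : ∀ m : ℤ, a (m + 1) - a (m - 1) = S.eval (m : ℚ)) :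
    ∃ Q : Polynomial ℚ, ∀ m : ℤ, a m = Q.eval (m : ℚ) := by
  obtain ⟨Q, hQ⟩ := exists_diff S
  have hSe : ∀ m : ℤ, S.eval (-(m : ℚ)) = S.eval (m : ℚ) := by
    intro m
    have h1 := hS (-m)
    have h2 := hS m
    rw [show -m + 1 = -(m - 1) by ring, show -m - 1 = -(m + 1) by ring, ha, ha] at h1
    push_cast at h1
    rw [← h1, ← h2]
    ring
  let R : Polynomial ℚ := Polynomial.C (1 / 2) * (Q - Q.comp (-Polynomial.X))
  have hR : ∀ x : ℚ, R.eval x = (Q.eval x - Q.eval (-x)) / 2 := by
    intro x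
    simp only [R, Polynomial.eval_mul, Polynomial.eval_C, Polynomial.eval_sub,
      Polynomial.eval_comp, Polynomial.eval_neg, Polynomial.eval_X]
    ring
  refine ⟨R, ?_⟩
  have hb : ∀ m : ℤ, a (m + 1) - R.eval ((m : ℚ) + 1) = a (m - 1) - R.eval ((m : ℚ) - 1) := by
    intro m
    have h1 := hQ m
    have h2 := hQ (-m)
    have h3 := hS m
    have h4 := hSe m
    rw [hR, hR]
    rw [show -((m : ℚ) + 1) = -(m : ℚ) - 1 by ring, show -((m : ℚ) - 1) = -(m : ℚ) + 1 by ring]
    linarith
  have hz : a 0 = 0 := by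
    have := ha 0
    rw [neg_zero] at this
    linarith
  have hR0 : ∀ x, R.eval (-x) = - R.eval x := by
    intro x
    rw [hR, hR, neg_neg]
    ring
  have hn : ∀ n : ℕ, a n = R.eval (n : ℚ) ∧ a (n + 1) = R.eval ((n : ℚ) + 1) := by
    intro n
    induction n with
    | zero =>
      have e0 : R.eval 0 = 0 := by
        have := hR0 0
        rw [neg_zero] at this
        linarith
      refine ⟨by simp [hz, e0], ?_⟩
      have h1 := hb 0
      simp only [zero_add, zero_sub, Int.cast_zero, ha] at h1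
      have h2 := hR0 1
      have : a 1 = R.eval 1 := by linarith
      simpa using this
    | succ n ih =>
      obtain ⟨h1, h2⟩ := ih
      have h3 := hb (n + 1)
      rw [show ((n : ℤ) + 1 - 1) = n by ring, h1] at h3
      push_cast at h3 ⊢
      refine ⟨h2, ?_⟩
      rw [add_sub_cancel_right] at h3
      linarith
  intro m
  obtain ⟨n, rfl | rfl⟩ := m.eq_nat_or_neg
  · exact_mod_cast (hn n).1
  · rw [ha, (hn n).1]
    push_cast
    rw [hR0]

/-- solutions of difference equations are polynomial families -/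
theorem PF.of_diff {A : ℤ → ℚ⟦X⟧} {c : ℚ} (hA : ∀ m, A (-m) = - A m)
    (h : PF (fun m => GK.hexp (c * m) * A (m + 1) - GK.hexp (-(c * m)) * A (m - 1))) : PF A := by
  intro n
  induction n using Nat.strong_induction_on with
  | _ n ih =>
    have ih' : ∀ m, ∃ Q : Polynomial ℚ, m < n → ∀ N : ℤ, coeff m (A N) = Q.eval (N : ℚ) := by
      intro m
      by_cases hm : m < n
      · obtain ⟨Q, hQ⟩ := ih m hm
        exact ⟨Q, fun _ => hQ⟩
      · exact ⟨0, fun h => absurd h hm⟩
    choose Q hQ using ih'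
    obtain ⟨R, hR⟩ := h n
    -- the difference of the `n`-th coefficients
    let S : Polynomial ℚ := R -
      (∑ k ∈ Finset.range n, (Polynomial.C c * Polynomial.X) ^ (k + 1) *
        Polynomial.C (1 / ((k + 1).factorial : ℚ)) *
        (Q (n - (k + 1))).comp (Polynomial.X + 1)) +
      (∑ k ∈ Finset.range n, (-(Polynomial.C c * Polynomial.X)) ^ (k + 1) *
        Polynomial.C (1 / ((k + 1).factorial : ℚ)) *
        (Q (n - (k + 1))).comp (Polynomial.X - 1))
    apply poly_of_diff (a := fun N => coeff n (A N)) (S := S)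
    · intro m
      beta_reduce
      rw [hA, map_neg]
    · intro m
      beta_reduce
      have h1 := hR m
      rw [map_sub, coeff_mul_range, coeff_mul_range, Finset.sum_range_succ',
        Finset.sum_range_succ'] at h1
      simp only [coeff_hexp, Nat.sub_zero] at h1
      have e1 : ∀ k ∈ Finset.range n, (c * (m : ℚ)) ^ (k + 1) * (1 / ((k + 1).factorial : ℚ)) *
          coeff (n - (k + 1)) (A (m + 1)) = ((Polynomial.C c * Polynomial.X) ^ (k + 1) *
        Polynomial.C (1 / ((k + 1).factorial : ℚ)) *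
        (Q (n - (k + 1))).comp (Polynomial.X + 1)).eval (m : ℚ) := by
        intro k hk
        have := Finset.mem_range.mp hk
        rw [hQ (n - (k + 1)) (by omega)]
        simp [Polynomial.eval_comp]
      have e2 : ∀ k ∈ Finset.range n, (-(c * (m : ℚ))) ^ (k + 1) *
          (1 / ((k + 1).factorial : ℚ)) *
          coeff (n - (k + 1)) (A (m - 1)) = ((-(Polynomial.C c * Polynomial.X)) ^ (k + 1) *
        Polynomial.C (1 / ((k + 1).factorial : ℚ)) *
        (Q (n - (k + 1))).comp (Polynomial.X - 1)).eval (m : ℚ) := by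
        intro k hk
        have := Finset.mem_range.mp hk
        rw [hQ (n - (k + 1)) (by omega)]
        simp [Polynomial.eval_comp]
      rw [Finset.sum_congr rfl e1, Finset.sum_congr rfl e2] at h1
      simp only [S, Polynomial.eval_add, Polynomial.eval_sub, Polynomial.eval_finsetSum]
      rw [← h1, pow_zero, pow_zero, Nat.factorial_zero, Nat.cast_one, div_one, one_mul, one_mul]
      ring

theorem PF.unknot : PF unknotJ := by
  apply PF.of_diff (c := 0) unknotJ_neg
  have h : PF (fun m : ℤ => GK.hexp (1 * m) + GK.hexp (-1 * m)) :=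
    (PF.hexp_lin 1).add (PF.hexp_lin (-1))
  apply h.congr
  intro m
  rw [zero_mul, neg_zero, hexp_zero, one_mul, one_mul, one_mul]
  apply mul_left_cancel₀ D_ne
  rw [mul_sub, unknotJ_mul, unknotJ_mul]
  push_cast
  rw [mul_add, sub_mul, sub_mul, ← hexp_add, ← hexp_add, ← hexp_add, ← hexp_add]
  rw [show (1 + (m : ℚ)) = m + 1 by ring, show (-1 + (m : ℚ)) = m - 1 by ring,
    show (1 + -1 * (m : ℚ)) = -(m - 1) by ring, show (-1 + -1 * (m : ℚ)) = -(m + 1) by ring]
  ring

theorem PF.cable {J : ℤ → ℚ⟦X⟧} (hJ : ∀ N, J (-N) = - J N) (h : PF J) (p : ℕ) (q : ℤ) :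
    PF (cableJ p q J) := by
  apply PF.of_diff (c := p * q) (cableJ_neg _ _ _)
  have h1 : PF (fun m : ℤ => GK.hexp (q * m) * J (p * m + 1) -
      GK.hexp (-q * m) * J (p * m + (-1))) :=
    ((PF.hexp_lin (q : ℚ)).mul (h.comp p 1)).sub ((PF.hexp_lin (-q : ℚ)).mul (h.comp p (-1)))
  apply h1.congr
  intro m
  rw [cableJ_diff hJ m, neg_mul, ← sub_eq_add_neg]

/-- division by the colour -/
theorem PF.div {J : ℤ → ℚ⟦X⟧} (h : PF J) (h0 : J 0 = 0) :
    ∃ j : ℤ → ℚ⟦X⟧, PF j ∧ ∀ N : ℤ, J N = C (N : ℚ) * j N := by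
  choose P hP using h
  have hX : ∀ n, ∃ Q : Polynomial ℚ, P n = Polynomial.X * Q := by
    intro n
    have h1 := hP n 0
    rw [h0, map_zero] at h1
    have h2 : Polynomial.X ∣ P n := by
      rw [Polynomial.X_dvd_iff, Polynomial.coeff_zero_eq_eval_zero]
      simpa using h1.symm
    obtain ⟨Q, hQ⟩ := h2
    exact ⟨Q, hQ⟩
  choose Q hQ using hX
  refine ⟨fun N => PowerSeries.mk fun n => (Q n).eval (N : ℚ), fun n => ⟨Q n, fun N => ?_⟩, ?_⟩
  · rw [coeff_mk]
  · intro N
    ext n
    rw [coeff_C_mul, coeff_mk, hP, hQ, Polynomial.eval_mul, Polynomial.eval_X]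

theorem PF.sum {J J' : ℤ → ℚ⟦X⟧} (h : PF J) (h0 : J 0 = 0) (h' : PF J') (h0' : J' 0 = 0) :
    PF (fun N => J N * J' N * (unknotJ N)⁻¹) := by
  obtain ⟨j, hj, e⟩ := h.div h0
  obtain ⟨j', hj', e'⟩ := h'.div h0'
  obtain ⟨u, hu, eu⟩ := PF.unknot.div unknotJ_zero
  have hu1 : ∀ N, constantCoeff (u N) = 1 := by
    obtain ⟨P, hP⟩ := hu 0
    have h1 : P = 1 := by
      apply Polynomial.eq_of_infinite_eval_eq
      have hi : Set.Infinite (Set.range fun k : ℕ => ((k + 1 : ℕ) : ℚ)) := by
        apply Set.infinite_range_of_injective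
        intro a b hab
        have hab' : ((a + 1 : ℕ) : ℚ) = ((b + 1 : ℕ) : ℚ) := hab
        have : (a + 1 : ℕ) = b + 1 := by exact_mod_cast hab'
        omega
      refine hi.mono ?_
      rintro _ ⟨k, rfl⟩
      have h2 := congrArg constantCoeff (eu (k + 1))
      rw [coeff_zero_unknotJ, map_mul, constantCoeff_C] at h2
      have h3 := hP (k + 1)
      rw [coeff_zero_eq_constantCoeff_apply] at h3
      rw [h3] at h2
      push_cast at h2
      have h4 : ((k : ℚ) + 1) ≠ 0 := by positivity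
      have h5 : (1 : ℚ) = Polynomial.eval ((k : ℚ) + 1) P := by
        apply mul_left_cancel₀ h4
        rw [← h2, mul_one]
      simp only [Set.mem_ofPred_eq, Polynomial.eval_one]
      push_cast
      exact h5.symm
    intro N
    have := hP N
    rw [h1, Polynomial.eval_one, coeff_zero_eq_constantCoeff_apply] at this
    exact this
  have key : PF (fun N : ℤ => C ((Polynomial.X : Polynomial ℚ).eval (N : ℚ)) *
      (j N * (j' N * (u N)⁻¹))) :=
    (PF.C_eval _).mul (hj.mul (hj'.mul (hu.inv hu1)))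
  apply key.congr
  intro N
  rw [Polynomial.eval_X]
  rcases eq_or_ne N 0 with rfl | hN
  · rw [h0]; simp
  · have hN' : unknotJ N ≠ 0 := by
      intro h1
      have := coeff_zero_unknotJ N
      rw [h1, map_zero] at this
      exact hN (by exact_mod_cast this.symm)
    apply mul_left_cancel₀ hN'
    have e1 : u N * (u N)⁻¹ = 1 := PowerSeries.mul_inv_cancel _ (by rw [hu1]; exact one_ne_zero)
    have e2 := mul_unknotJ_cancel hN
    have e3 : unknotJ N * (J N * J' N * (unknotJ N)⁻¹) = J N * J' N := by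
      linear_combination (J N * J' N) * e2
    rw [e3, e N, e' N, eu N]
    linear_combination (C (N : ℚ) * C (N : ℚ) * j N * j' N) * e1

theorem PF.graph (K : GraphKnot) : PF (colouredJones K) := by
  induction K with
  | unknot => exact PF.unknot
  | cable p q hp hq K ih => exact PF.cable (colouredJones_odd K) ih p q
  | sum K L hK hL => exact PF.sum hK (colouredJones_zero K) hL (colouredJones_zero L)

end

end Pool.Agent.H765.ST
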