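import Mathlib
import Pool.Agent.H765.ST.PF
import Pool.Agent.H765.ST.Def

/-! Patterns with non-zero winding number are injective on coloured Jones functions. -/

namespace Pool.Agent.H765.ST

open PowerSeries GK

noncomputable section

theorem rescale_hexp (w b : ℚ) : rescale w (hexp b) = hexp (w * b) := by
  ext n
  rw [coeff_rescale, coeff_hexp, coeff_hexp]
  ring

theorem adams_mul (w : ℤ) (N : ℕ) : (hexp 1 - hexp (-1)) * rescale (w : ℚ) (unknotJ N) =
    symSum (fun j : ℤ => hexp (w * j + 1) - hexp (w * j - 1)) N := by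
  rw [unknotJ_natCast]
  unfold symSum
  rw [map_sum, Finset.mul_sum]
  apply Finset.sum_congr rfl
  intro i _
  rw [rescale_hexp, sub_mul, ← hexp_add, ← hexp_add]
  congr 2 <;> ring

theorem adams_poly {w : ℤ} (P : Pattern w) (N : ℕ) (f : Polynomial ℚ) :
    ((P.coef N).sum fun k c => constantCoeff c * (f.eval (k : ℚ) - f.eval (-(k : ℚ)))) =
      symSum (fun j : ℤ => f.eval ((w : ℚ) * j + 1) - f.eval ((w : ℚ) * j - 1)) N := by
  have h1 : ((P.coef N).sum fun k c => C (constantCoeff c) * (hexp k - hexp (-k))) =
      symSum (fun j : ℤ => hexp (w * j + 1) - hexp (w * j - 1)) N := by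
    rw [← adams_mul, ← P.adams N]
    unfold Finsupp.sum
    rw [Finset.mul_sum]
    apply Finset.sum_congr rfl
    intro k _
    have := unknotJ_mul k
    rw [Int.cast_natCast] at this
    beta_reduce
    rw [← this]
    ring
  induction f using Polynomial.induction_on' with
  | add p q hp hq =>
    have e1 : ((P.coef N).sum fun k c => constantCoeff c *
        ((p + q).eval (k : ℚ) - (p + q).eval (-(k : ℚ)))) =
        ((P.coef N).sum fun k c => constantCoeff c * (p.eval (k : ℚ) - p.eval (-(k : ℚ)))) +
        ((P.coef N).sum fun k c => constantCoeff c * (q.eval (k : ℚ) - q.eval (-(k : ℚ)))) := by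
      unfold Finsupp.sum
      rw [← Finset.sum_add_distrib]
      apply Finset.sum_congr rfl
      intro k _
      beta_reduce
      rw [Polynomial.eval_add, Polynomial.eval_add]
      ring
    rw [e1, hp, hq]
    unfold symSum
    rw [← Finset.sum_add_distrib]
    apply Finset.sum_congr rfl
    intro k _
    beta_reduce
    rw [Polynomial.eval_add, Polynomial.eval_add]
    ring
  | monomial n a =>
    have h2 := congrArg (coeff n) h1
    unfold Finsupp.sum symSum at h2
    rw [map_sum, map_sum] at h2
    have hn : (n.factorial : ℚ) ≠ 0 := by exact_mod_cast n.factorial_ne_zero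
    have h3 : ∀ x y : ℚ, coeff n (hexp x - hexp y) * (a * n.factorial) =
        (Polynomial.monomial n a).eval x - (Polynomial.monomial n a).eval y := by
      intro x y
      rw [map_sub, coeff_hexp, coeff_hexp, Polynomial.eval_monomial, Polynomial.eval_monomial]
      field_simp
    unfold Finsupp.sum symSum
    have e1 : ∀ k ∈ (P.coef N).support, constantCoeff (P.coef N k) *
        ((Polynomial.monomial n a).eval (k : ℚ) - (Polynomial.monomial n a).eval (-(k : ℚ))) =
        coeff n (C (constantCoeff (P.coef N k)) * (hexp k - hexp (-k))) *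
          (a * n.factorial) := by
      intro k _
      rw [coeff_C_mul, ← h3]
      ring
    rw [Finset.sum_congr rfl e1, ← Finset.sum_mul, h2, Finset.sum_mul]
    apply Finset.sum_congr rfl
    intro i _
    exact h3 _ _

theorem poly_shift_zero {w : ℤ} (hw : w ≠ 0) {f : Polynomial ℚ}
    (hf0 : f.eval 0 = 0)
    (h2 : ∀ M : ℕ, f.eval ((w : ℚ) * ((M : ℚ) + 1) + 1) =
      f.eval ((w : ℚ) * ((M : ℚ) + 1) - 1)) : f = 0 := by
  have hwq : (w : ℚ) ≠ 0 := by exact_mod_cast hw
  have h3 : f.comp (Polynomial.X + 1) = f.comp (Polynomial.X - 1) := by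
    apply Polynomial.eq_of_infinite_eval_eq
    have hi : Set.Infinite (Set.range fun M : ℕ => (w : ℚ) * ((M : ℚ) + 1)) := by
      apply Set.infinite_range_of_injective
      intro a b hab
      have hab' : (w : ℚ) * ((a : ℚ) + 1) = (w : ℚ) * ((b : ℚ) + 1) := hab
      have := mul_left_cancel₀ hwq hab'
      have : (a : ℚ) = b := by linarith
      exact_mod_cast this
    refine hi.mono ?_
    rintro _ ⟨M, rfl⟩
    simp only [Set.mem_ofPred_eq, Polynomial.eval_comp, Polynomial.eval_add, Polynomial.eval_sub,
      Polynomial.eval_X, Polynomial.eval_one]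
    exact h2 M
  have h4 : ∀ k : ℕ, f.eval (2 * (k : ℚ)) = 0 := by
    intro k
    induction k with
    | zero =>
      simp only [Nat.cast_zero, mul_zero]
      exact hf0
    | succ k ih =>
      have := congrArg (Polynomial.eval (2 * (k : ℚ) + 1)) h3
      simp only [Polynomial.eval_comp, Polynomial.eval_add, Polynomial.eval_sub,
        Polynomial.eval_X, Polynomial.eval_one] at this
      rw [add_sub_cancel_right, ih] at this
      push_cast
      rw [← this]
      congr 1
      ring
  apply Polynomial.eq_zero_of_infinite_isRoot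
  have hi : Set.Infinite (Set.range fun k : ℕ => 2 * (k : ℚ)) := by
    apply Set.infinite_range_of_injective
    intro a b hab
    have hab' : 2 * (a : ℚ) = 2 * (b : ℚ) := hab
    have : (a : ℚ) = b := by linarith
    exact_mod_cast this
  refine hi.mono ?_
  rintro _ ⟨k, rfl⟩
  exact h4 k

theorem sat_injective {w : ℤ} (hw : w ≠ 0) (P : Pattern w) {J J' : ℤ → ℚ⟦X⟧}
    (ho : ∀ N, J (-N) = - J N) (ho' : ∀ N, J' (-N) = - J' N) (hp : PF J) (hp' : PF J')
    (h : ∀ N : ℕ, P.sat J N = P.sat J' N) : J = J' := by
  by_contra hne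
  set D : ℤ → ℚ⟦X⟧ := fun N => J N - J' N with hD
  have hDp : PF D := hp.sub hp'
  have hDo : ∀ N, D (-N) = - D N := by
    intro N; simp only [hD]; rw [ho, ho']; ring
  have hex : ∃ n, ∃ N : ℤ, coeff n (D N) ≠ 0 := by
    by_contra hall
    push Not at hall
    apply hne
    funext N
    ext n
    have := hall n N
    simp only [hD, map_sub] at this
    linarith
  classical
  let n := Nat.find hex
  have hn : ∃ N : ℤ, coeff n (D N) ≠ 0 := Nat.find_spec hex
  have hlt : ∀ i < n, ∀ N : ℤ, coeff i (D N) = 0 := by
    intro i hi N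
    by_contra hc
    exact Nat.find_min hex hi ⟨N, hc⟩
  obtain ⟨f, hf⟩ := hDp n
  have hfo : ∀ m : ℤ, f.eval (-(m : ℚ)) = - f.eval (m : ℚ) := by
    intro m
    rw [← hf m, ← map_neg, ← hDo, hf]
    push_cast
    rfl
  -- the combination vanishes
  have h0 : ∀ N : ℕ, ((P.coef N).sum fun k c => constantCoeff c * f.eval (k : ℚ)) = 0 := by
    intro N
    have h1 : ((P.coef N).sum fun k c => c * D k) = 0 := by
      have h2 := h N
      unfold Pattern.sat Finsupp.sum at h2
      unfold Finsupp.sum
      simp only [hD, mul_sub, Finset.sum_sub_distrib]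
      rw [h2, sub_self]
    have h2 := congrArg (coeff n) h1
    unfold Finsupp.sum at h2 ⊢
    rw [map_sum, map_zero] at h2
    rw [← h2]
    apply Finset.sum_congr rfl
    intro k _
    rw [coeff_mul_range, Finset.sum_range_succ', Finset.sum_eq_zero, zero_add, Nat.sub_zero]
    · have := hf k
      rw [Int.cast_natCast] at this
      rw [this, coeff_zero_eq_constantCoeff_apply]
    · intro i hi
      have := Finset.mem_range.mp hi
      rw [hlt (n - (i + 1)) (by omega), mul_zero]
  have h1 : ∀ N : ℕ, symSum (fun j : ℤ => f.eval ((w : ℚ) * j + 1) - f.eval ((w : ℚ) * j - 1)) N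
      = 0 := by
    intro N
    rw [← adams_poly P N f]
    have h2 := h0 N
    have e : ((P.coef N).sum fun k c => constantCoeff c *
        (f.eval (k : ℚ) - f.eval (-(k : ℚ)))) =
        2 * ((P.coef N).sum fun k c => constantCoeff c * f.eval (k : ℚ)) := by
      unfold Finsupp.sum
      rw [Finset.mul_sum]
      apply Finset.sum_congr rfl
      intro k _
      have := hfo k
      rw [Int.cast_natCast] at this
      beta_reduce
      rw [this]
      ring
    rw [e, h2, mul_zero]
  have h2 : ∀ M : ℕ, f.eval ((w : ℚ) * ((M : ℚ) + 1) + 1) =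
      f.eval ((w : ℚ) * ((M : ℚ) + 1) - 1) := by
    intro M
    have e1 := h1 (M + 2)
    rw [symSum_add_two, h1 M] at e1
    push_cast at e1
    have e2 := hfo (w * (M + 1) - 1)
    have e3 := hfo (w * (M + 1) + 1)
    push_cast at e2 e3
    rw [show -((w : ℚ) * ((M : ℚ) + 1) - 1) = (w : ℚ) * (-1 + -(M : ℚ)) + 1 by ring] at e2
    rw [show -((w : ℚ) * ((M : ℚ) + 1) + 1) = (w : ℚ) * (-1 + -(M : ℚ)) - 1 by ring] at e3
    rw [show (-((M : ℚ) + 1)) = -1 + -(M : ℚ) by ring, e2, e3] at e1
    linarith
  have hf0 : f.eval 0 = 0 := by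
    have := hfo 0
    simp only [Int.cast_zero, neg_zero] at this
    linarith
  have h5 : f = 0 := poly_shift_zero hw hf0 h2
  obtain ⟨N, hN⟩ := hn
  exact hN (by rw [hf, h5, Polynomial.eval_zero])

end

end Pool.Agent.H765.ST
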