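import Mathlib
import Pool.Agent.H765.ST.PF
import Pool.Agent.H765.ST.Def

/-! Whitehead doubling is injective on coloured Jones functions. -/

namespace Pool.Agent.H765.ST

open PowerSeries GK DB

noncomputable section

/-- `∏_{j=1}^{ρ} [K-j] [K+j]` -/
def cp (K : ℤ) (ρ : ℕ) : ℚ⟦X⟧ := ∏ j ∈ Finset.range ρ, unknotJ (K - (j + 1)) * unknotJ (K + (j + 1))

theorem ph_eq_cp (K ρ : ℕ) : ph (ρ + 1) K = cp K ρ * (unknotJ K * unknotJ (K + (ρ + 1))) := by
  induction ρ with
  | zero => rw [ph_succ, ph_zero]; simp [cp]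
  | succ ρ ih =>
    rw [ph_succ, ih]
    unfold cp
    rw [Finset.prod_range_succ]
    push_cast
    rw [show ((K : ℤ) + (ρ + 1) + 1) = K + (ρ + 1 + 1) by ring]
    ring

theorem ph_eq_cp' (K ρ : ℕ) :
    ph (ρ + 1) K = cp (K + 1) ρ * (unknotJ (K + 1) * unknotJ (K + 1 - (ρ + 1))) := by
  induction ρ with
  | zero =>
    rw [ph_succ, ph_zero]
    simp only [cp, Finset.prod_range_zero, Nat.cast_zero, sub_zero, zero_add, add_zero, one_mul,
      add_sub_cancel_right]
    ring
  | succ ρ ih =>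
    rw [ph_succ, ih]
    unfold cp
    rw [Finset.prod_range_succ]
    push_cast
    rw [show ((K : ℤ) + 1 - (ρ + 1 + 1)) = K - (ρ + 1) by ring,
      show ((K : ℤ) + 1 + (ρ + 1)) = K + (ρ + 1) + 1 by ring]
    ring

/-- `v^s - v^{-s}` -/
def dl (s : ℤ) : ℚ⟦X⟧ := hexp s - hexp (-s)

theorem dl_ne {s : ℤ} (hs : s = 1 ∨ s = -1) : dl s ≠ 0 := by
  intro h
  have := congrArg (coeff 1) h
  unfold dl at this
  rw [map_sub, coeff_hexp, coeff_hexp] at this
  rcases hs with rfl | rfl <;> norm_num at this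

theorem dl_mul {s : ℤ} (hs : s = 1 ∨ s = -1) (n : ℤ) :
    dl s * unknotJ n = hexp (s * n) - hexp (-(s * n)) := by
  rcases hs with rfl | rfl
  · have := unknotJ_mul n
    unfold dl
    simpa using this
  · have := unknotJ_mul n
    unfold dl
    push_cast
    rw [neg_neg, neg_one_mul, neg_neg]
    linear_combination -this

/-- the coefficients of `v^{2 s k (k+1)}` -/
def Ec (s : ℤ) (r : ℕ) : ℚ⟦X⟧ := hexp (s * (r * (r + 3)) / 2) * dl s ^ r * (qfac r)⁻¹

theorem qfac_inv_succ (r : ℕ) : (qfac (r + 1))⁻¹ * unknotJ (r + 1) = (qfac r)⁻¹ := by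
  have h1 := PowerSeries.mul_inv_cancel _ (constCoeff_qfac_ne (r + 1))
  have h2 := PowerSeries.mul_inv_cancel _ (constCoeff_qfac_ne r)
  rw [qfac_succ] at h1
  rw [qfac_succ]
  have h3 : qfac r ≠ 0 := by
    intro h
    exact constCoeff_qfac_ne r (by rw [h, map_zero])
  apply mul_left_cancel₀ h3
  rw [h2, ← h1]
  ring

theorem telescope {s : ℤ} (hs : s = 1 ∨ s = -1) (K ρ : ℕ) :
    ∑ r ∈ Finset.range (ρ + 1), Ec s r * (ph r (K + 1) - hexp (4 * s * (K + 1)) * ph r K) =
      hexp (s * (ρ * (ρ + 1)) / 2) * dl s ^ ρ * (qfac ρ)⁻¹ * cp (K + 1) ρ *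
        (1 - hexp (4 * s * (K + 1))) := by
  induction ρ with
  | zero =>
    rw [Finset.sum_range_one, ph_zero, ph_zero]
    simp [Ec, cp, qfac_zero, hexp_zero]
  | succ ρ ih =>
    rw [Finset.sum_range_succ, ih]
    have e1 := ph_eq_cp (K + 1) ρ
    have e2 := ph_eq_cp' K ρ
    push_cast at e1
    rw [e1, e2]
    unfold Ec
    have e3 : cp ((K : ℤ) + 1) (ρ + 1) = cp ((K : ℤ) + 1) ρ *
        (unknotJ ((K : ℤ) + 1 - (ρ + 1)) * unknotJ ((K : ℤ) + 1 + (ρ + 1))) := by
      unfold cp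
      rw [Finset.prod_range_succ]
    rw [e3, ← qfac_inv_succ ρ]
    have hd := dl_ne hs
    apply mul_left_cancel₀ hd
    apply mul_left_cancel₀ hd
    have a1 := dl_mul hs ((ρ : ℤ) + 1)
    have a2 := dl_mul hs ((K : ℤ) + 1)
    have a3 := dl_mul hs ((K : ℤ) + 1 + (ρ + 1))
    have a4 := dl_mul hs ((K : ℤ) + 1 - (ρ + 1))
    -- names
    set V := hexp (s * ((K : ℚ) + 1)) with hV
    set Vi := hexp (-(s * ((K : ℚ) + 1))) with hVi
    set R := hexp (s * ((ρ : ℚ) + 1)) with hR
    set Ri := hexp (-(s * ((ρ : ℚ) + 1))) with hRi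
    have b1 : V * Vi = 1 := by rw [hV, hVi, ← hexp_add, add_neg_cancel, hexp_zero]
    have b2 : R * Ri = 1 := by rw [hR, hRi, ← hexp_add, add_neg_cancel, hexp_zero]
    have c1 : dl s * unknotJ ((ρ : ℤ) + 1) = R - Ri := by rw [a1]; push_cast; rfl
    have c2 : dl s * unknotJ ((K : ℤ) + 1) = V - Vi := by rw [a2]; push_cast; rfl
    have c3 : dl s * unknotJ ((K : ℤ) + 1 + (ρ + 1)) = V * R - Vi * Ri := by
      rw [a3, hV, hVi, hR, hRi, ← hexp_add, ← hexp_add]
      congr 2 <;> push_cast <;> ring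
    have c4 : dl s * unknotJ ((K : ℤ) + 1 - (ρ + 1)) = V * Ri - Vi * R := by
      rw [a4, hV, hVi, hR, hRi, ← hexp_add, ← hexp_add]
      congr 2 <;> push_cast <;> ring
    have d1 : hexp (4 * s * ((K : ℚ) + 1)) = V ^ 4 := by
      rw [hV, show V ^ 4 = V * V * V * V by ring, hV, ← hexp_add, ← hexp_add, ← hexp_add]
      congr 1; ring
    set E := hexp (s * (ρ * ((ρ : ℚ) + 1)) / 2) with hE
    have d2 : hexp (s * (((ρ + 1 : ℕ) : ℚ) * (((ρ + 1 : ℕ) : ℚ) + 3)) / 2) = E * R * R := by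
      rw [hE, hR, ← hexp_add, ← hexp_add]
      congr 1; push_cast; ring
    have d3 : hexp (s * (((ρ + 1 : ℕ) : ℚ) * (((ρ + 1 : ℕ) : ℚ) + 1)) / 2) = E * R := by
      rw [hE, hR, ← hexp_add]
      congr 1; push_cast; ring
    rw [d1, d2, d3, pow_succ (dl s) ρ]
    set δ := dl s with hδ
    set u1 := unknotJ ((ρ : ℤ) + 1)
    set u2 := unknotJ ((K : ℤ) + 1)
    set u3 := unknotJ ((K : ℤ) + 1 + (ρ + 1))
    set u4 := unknotJ ((K : ℤ) + 1 - (ρ + 1))
    set Q := (qfac (ρ + 1))⁻¹
    set W := cp ((K : ℤ) + 1) ρ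
    have key : δ * u1 * (1 - V ^ 4) + R ^ 2 * ((δ * u2) * (δ * u3) - V ^ 4 * ((δ * u2) * (δ * u4)))
        = R * ((δ * u4) * (δ * u3)) * (1 - V ^ 4) := by
      rw [c1, c2, c3, c4]
      linear_combination (R * Ri ^ 2 - R * Ri ^ 2 * V ^ 4 - R ^ 2 * Ri +
        R ^ 2 * Ri * V ^ 2 * (V * Vi + 1) + R ^ 2 * Ri * V ^ 4 -
        R ^ 3 * V ^ 2 * (V * Vi + 1)) * b1 + (Ri - Ri * V ^ 4 - R + R * V ^ 4) * b2
    linear_combination (E * δ ^ ρ * Q * W * δ) * key

/-- the cyclotomic expansion of `v^{2 s k (k+1)}` -/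
theorem twist_expansion {s : ℤ} (hs : s = 1 ∨ s = -1) (k : ℕ) :
    hexp (2 * s * (k * (k + 1))) = ∑ r ∈ Finset.range (k + 1), Ec s r * ph r k := by
  induction k with
  | zero => simp [Ec, ph_zero, qfac_zero, hexp_zero]
  | succ K ih =>
    have h1 := telescope hs K (K + 1)
    have h2 : cp ((K : ℤ) + 1) (K + 1) = 0 := by
      unfold cp
      rw [Finset.prod_range_succ, sub_self, unknotJ_zero]
      ring
    rw [h2, mul_zero, zero_mul] at h1
    have h3 : ∑ r ∈ Finset.range (K + 1 + 1), Ec s r * (ph r (K + 1) -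
        hexp (4 * s * (K + 1)) * ph r K) = ∑ r ∈ Finset.range (K + 1 + 1), Ec s r * ph r (K + 1) -
        hexp (4 * s * (K + 1)) * ∑ r ∈ Finset.range (K + 1), Ec s r * ph r K := by
      rw [Finset.mul_sum, ← add_zero (∑ r ∈ Finset.range (K + 1),
        hexp (4 * s * (K + 1)) * (Ec s r * ph r K)),
        show (0 : ℚ⟦X⟧) = hexp (4 * s * (K + 1)) * (Ec s (K + 1) * ph (K + 1) K) by
          rw [ph_eq_zero (Nat.lt_succ_self K)]; ring, ← Finset.sum_range_succ,
        ← Finset.sum_sub_distrib]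
      apply Finset.sum_congr rfl
      intro r _
      ring
    rw [h3, ← ih, ← hexp_add] at h1
    rw [sub_eq_zero.mp h1]
    congr 1
    push_cast
    ring

theorem T_twist {s : ℤ} (hs : s = 1 ∨ s = -1) (i : ℕ) :
    T i (fun k => hexp (2 * s * (k * (k + 1)))) = Ec s i := by
  have h1 : T i (fun k => hexp (2 * s * (k * (k + 1)))) =
      T i (fun k => ∑ r ∈ Finset.range (i + 1), Ec s r * ph r k) := by
    apply T_congr
    intro k hk
    rw [twist_expansion hs]
    apply Finset.sum_subset (Finset.range_subset_range.mpr (by omega))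
    intro r _ hr
    rw [Finset.mem_range] at hr
    rw [ph_eq_zero (by omega), mul_zero]
  rw [h1]
  have h2 : ∀ n, T i (fun k => ∑ r ∈ Finset.range n, Ec s r * ph r k) =
      ∑ r ∈ Finset.range n, Ec s r * T i (ph r) := by
    intro n
    induction n with
    | zero =>
      simp only [Finset.range_zero, Finset.sum_empty]
      unfold T
      simp
    | succ n ih =>
      simp only [Finset.sum_range_succ]
      rw [T_add i, ih, T_mul]
  rw [h2, Finset.sum_range_succ, T_ph_self, Finset.sum_eq_zero, zero_add, mul_one]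
  intro r hr
  have := Finset.mem_range.mp hr
  rw [T_ph_lt (i - r - 1) i r (by omega), mul_zero]

theorem annulus_clasp {s : ℤ} (hs : s = 1 ∨ s = -1) (i : ℕ) :
    annulus unknotJ s i = hexp (s * (i * (i + 3)) / 2) * dl s ^ i := by
  have h1 : annulus unknotJ s i = qfac i * T i (fun k => hexp (2 * s * (k * (k + 1)))) := by
    unfold annulus T
    congr 1
    apply Finset.sum_congr rfl
    intro k _
    rw [show (2 * (s : ℚ) * k * (k + 1)) = 2 * s * (k * (k + 1)) by ring]
    ring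
  rw [h1, T_twist hs]
  unfold Ec
  have := PowerSeries.mul_inv_cancel _ (constCoeff_qfac_ne i)
  linear_combination (hexp (s * (i * (i + 3)) / 2) * dl s ^ i) * this

theorem hexp_ne (b : ℚ) : hexp b ≠ 0 := by
  intro hb
  have := congrArg (coeff 0) hb
  rw [coeff_hexp] at this
  simp at this

theorem annulus_clasp_ne {s : ℤ} (hs : s = 1 ∨ s = -1) (i : ℕ) : annulus unknotJ s i ≠ 0 := by
  rw [annulus_clasp hs]
  exact mul_ne_zero (hexp_ne _) (pow_ne_zero _ (dl_ne hs))

theorem unknotJ_ne {n : ℤ} (h : n ≠ 0) : unknotJ n ≠ 0 := by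
  intro h1
  have := coeff_zero_unknotJ n
  rw [h1, map_zero] at this
  exact h (by exact_mod_cast this.symm)

/-- the function of a plumbing determines the products of the annulus coefficients -/
theorem plumb_determines {J J' L L' : ℤ → ℚ⟦X⟧} {m m' n n' : ℤ}
    (h : ∀ N : ℕ, plumbJ J m L n N = plumbJ J' m' L' n' N) (i : ℕ) :
    annulus J m i * annulus L n i = annulus J' m' i * annulus L' n' i := by
  induction i using Nat.strong_induction_on with
  | _ i ih =>
    have h1 := h (i + 1)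
    unfold plumbJ at h1
    have h2 := mul_left_cancel₀ (unknotJ_ne (by positivity)) h1
    rw [Int.natAbs_natCast, Finset.sum_range_succ, Finset.sum_range_succ] at h2
    have h3 : ∀ l ∈ Finset.range i, (-1 : ℚ⟦X⟧) ^ l *
        (∏ j ∈ Finset.range l, unknotJ (((i + 1 : ℕ) : ℤ) + (j + 1)) *
          unknotJ (((i + 1 : ℕ) : ℤ) - (j + 1))) * (annulus J m l * annulus L n l) =
        (-1) ^ l * (∏ j ∈ Finset.range l, unknotJ (((i + 1 : ℕ) : ℤ) + (j + 1)) *
          unknotJ (((i + 1 : ℕ) : ℤ) - (j + 1))) * (annulus J' m' l * annulus L' n' l) := by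
      intro l hl
      rw [ih l (Finset.mem_range.mp hl)]
    rw [Finset.sum_congr rfl h3] at h2
    have h4 := add_left_cancel h2
    refine mul_left_cancel₀ (mul_ne_zero (pow_ne_zero _ (neg_ne_zero.mpr one_ne_zero)) ?_) h4
    rw [Finset.prod_ne_zero_iff]
    intro j hj
    have := Finset.mem_range.mp hj
    apply mul_ne_zero
    · apply unknotJ_ne; push_cast; positivity
    · apply unknotJ_ne; push_cast; omega

/-- the annulus coefficients determine the odd colours -/
theorem annulus_determines {J J' : ℤ → ℚ⟦X⟧} {m : ℤ}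
    (h : ∀ i, annulus J m i = annulus J' m i) (k : ℕ) : J (2 * k + 1) = J' (2 * k + 1) := by
  induction k using Nat.strong_induction_on with
  | _ k ih =>
    have h1 := h k
    unfold annulus at h1
    have hq : ∀ n, qfac n ≠ 0 := by
      intro n h
      exact constCoeff_qfac_ne n (by rw [h, map_zero])
    have hqi : ∀ a b, (qfac a * qfac b)⁻¹ ≠ 0 := by
      intro a b h
      have := PowerSeries.mul_inv_cancel (qfac a * qfac b) (by
        rw [map_mul]; exact mul_ne_zero (constCoeff_qfac_ne _) (constCoeff_qfac_ne _))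
      rw [h, mul_zero] at this
      exact zero_ne_one this
    have h2 := mul_left_cancel₀ (hq _) h1
    rw [Finset.sum_range_succ, Finset.sum_range_succ] at h2
    have h3 : ∀ l ∈ Finset.range k, (-1 : ℚ⟦X⟧) ^ (k - l) * hexp (2 * m * l * (l + 1)) *
        J (2 * l + 1) * (qfac (k - l) * qfac (k + l + 1))⁻¹ =
        (-1) ^ (k - l) * hexp (2 * m * l * (l + 1)) *
        J' (2 * l + 1) * (qfac (k - l) * qfac (k + l + 1))⁻¹ := by
      intro l hl
      rw [ih l (Finset.mem_range.mp hl)]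
    rw [Finset.sum_congr rfl h3] at h2
    have h4 := mul_right_cancel₀ (hqi _ _) (add_left_cancel h2)
    exact mul_left_cancel₀ (mul_ne_zero (pow_ne_zero _ (neg_ne_zero.mpr one_ne_zero))
      (hexp_ne _)) h4

/-- Whitehead doubling with fixed twist and clasp is injective. -/
theorem double_injective {m ε : ℤ} (hε : ε = 1 ∨ ε = -1) {J J' : ℤ → ℚ⟦X⟧} (hp : PF J)
    (hp' : PF J') (h : ∀ N : ℕ, doubleJ m ε J N = doubleJ m ε J' N) : J = J' := by
  apply PF.ext_odd hp hp'
  apply annulus_determines (m := m)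
  intro i
  exact mul_right_cancel₀ (annulus_clasp_ne hε i) (plumb_determines h i)

end

end Pool.Agent.H765.ST
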