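import Mathlib
import Pool.Agent.H765.ST.Wh
import Pool.Agent.H765.ST.Pat

/-! Classification of the twisted Whitehead doubles of graph knots. -/

namespace Pool.Agent.H765.ST

open PowerSeries GK DB

noncomputable section

/-- the coefficients up to degree three -/
def T4 (f : ℚ⟦X⟧) (a b c d : ℚ) : Prop :=
  coeff 0 f = a ∧ coeff 1 f = b ∧ coeff 2 f = c ∧ coeff 3 f = d

theorem T4.mul {f g : ℚ⟦X⟧} {a b c d a' b' c' d' : ℚ} (h : T4 f a b c d)
    (h' : T4 g a' b' c' d') :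
    T4 (f * g) (a * a') (a * b' + b * a') (a * c' + b * b' + c * a')
      (a * d' + b * c' + c * b' + d * a') := by
  obtain ⟨h0, h1, h2, h3⟩ := h
  obtain ⟨k0, k1, k2, k3⟩ := h'
  refine ⟨?_, ?_, ?_, ?_⟩
  · rw [coeff_mul_range, Finset.sum_range_one, Nat.sub_zero, h0, k0]
  · rw [coeff_mul_range, Finset.sum_range_succ, Finset.sum_range_one, Nat.sub_zero, Nat.sub_self,
      h0, k0, h1, k1]
  · rw [coeff_mul_range, Finset.sum_range_succ, Finset.sum_range_succ, Finset.sum_range_one,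
      Nat.sub_zero, Nat.sub_self, show 2 - 1 = 1 from rfl, h0, k0, h1, k1, h2, k2]
  · rw [coeff_mul_range, Finset.sum_range_succ, Finset.sum_range_succ, Finset.sum_range_succ,
      Finset.sum_range_one, Nat.sub_zero, Nat.sub_self, show 3 - 1 = 2 from rfl,
      show 3 - 2 = 1 from rfl, h0, k0, h1, k1, h2, k2, h3, k3]

theorem T4.sub {f g : ℚ⟦X⟧} {a b c d a' b' c' d' : ℚ} (h : T4 f a b c d)
    (h' : T4 g a' b' c' d') : T4 (f - g) (a - a') (b - b') (c - c') (d - d') := by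
  obtain ⟨h0, h1, h2, h3⟩ := h
  obtain ⟨k0, k1, k2, k3⟩ := h'
  refine ⟨?_, ?_, ?_, ?_⟩
  · rw [map_sub, h0, k0]
  · rw [map_sub, h1, k1]
  · rw [map_sub, h2, k2]
  · rw [map_sub, h3, k3]

theorem T4.add {f g : ℚ⟦X⟧} {a b c d a' b' c' d' : ℚ} (h : T4 f a b c d)
    (h' : T4 g a' b' c' d') : T4 (f + g) (a + a') (b + b') (c + c') (d + d') := by
  obtain ⟨h0, h1, h2, h3⟩ := h
  obtain ⟨k0, k1, k2, k3⟩ := h'
  refine ⟨?_, ?_, ?_, ?_⟩
  · rw [map_add, h0, k0]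
  · rw [map_add, h1, k1]
  · rw [map_add, h2, k2]
  · rw [map_add, h3, k3]

theorem T4.dvd {f : ℚ⟦X⟧} {a b c d : ℚ} (h : T4 f a b c d) (ha : a = 0) (hb : b = 0)
    (hc : c = 0) (hd : d = 0) : X ^ 4 ∣ f := by
  rw [X_pow_dvd_iff]
  intro m hm
  obtain ⟨h0, h1, h2, h3⟩ := h
  interval_cases m
  · rw [h0, ha]
  · rw [h1, hb]
  · rw [h2, hc]
  · rw [h3, hd]

theorem T4.of_dvd {f g : ℚ⟦X⟧} {a b c d : ℚ} (h : X ^ 4 ∣ f - g) (hg : T4 g a b c d) :
    T4 f a b c d := by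
  rw [X_pow_dvd_iff] at h
  obtain ⟨h0, h1, h2, h3⟩ := hg
  have e : ∀ m < 4, coeff m f = coeff m g := by
    intro m hm
    have := h m hm
    rw [map_sub] at this
    linarith
  exact ⟨by rw [e 0 (by norm_num), h0], by rw [e 1 (by norm_num), h1],
    by rw [e 2 (by norm_num), h2], by rw [e 3 (by norm_num), h3]⟩

theorem T4.unique {f : ℚ⟦X⟧} {a b c d a' b' c' d' : ℚ} (h : T4 f a b c d)
    (h' : T4 f a' b' c' d') : a = a' ∧ b = b' ∧ c = c' ∧ d = d' :=
  ⟨h.1.symm.trans h'.1, h.2.1.symm.trans h'.2.1, h.2.2.1.symm.trans h'.2.2.1,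
    h.2.2.2.symm.trans h'.2.2.2⟩

theorem t4_hexp (b : ℚ) : T4 (hexp b) 1 b (b ^ 2 / 2) (b ^ 3 / 6) := by
  refine ⟨?_, ?_, ?_, ?_⟩
  · rw [coeff_hexp]; simp
  · rw [coeff_hexp]; simp
  · rw [coeff_hexp]; simp [Nat.factorial]; ring
  · rw [coeff_hexp]; simp [Nat.factorial]; ring

theorem t4_C2 (a : ℚ) : T4 (C a * X ^ 2) 0 0 a 0 := by
  refine ⟨?_, ?_, ?_, ?_⟩ <;> rw [coeff_C_mul_X_pow] <;> simp

theorem t4_C3 (a : ℚ) : T4 (C a * X ^ 3) 0 0 0 a := by
  refine ⟨?_, ?_, ?_, ?_⟩ <;> rw [coeff_C_mul_X_pow] <;> simp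

theorem symSum_cube_zero (n : ℕ) : symSum (fun j : ℤ => ((j : ℚ) ^ 3 / 6)) n = 0 := by
  induction n using Nat.strong_induction_on with
  | _ n ih =>
    match n, ih with
    | 0, _ => simp [symSum_zero]
    | 1, _ => simp [symSum_one]
    | n + 2, ih =>
      rw [symSum_add_two, ih n (by omega)]
      push_cast
      ring

theorem t4_unknotJ (N : ℤ) : T4 (unknotJ N) N 0 (N * ((N : ℚ) ^ 2 - 1) / 6) 0 := by
  have h := tr_unknotJ N
  refine ⟨h.1, h.2.1, h.2.2, ?_⟩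
  have h3 : ∀ n : ℕ, coeff 3 (unknotJ n) = 0 := by
    intro n
    rw [unknotJ_natCast, ← symSum_cube_zero n]
    unfold symSum
    rw [map_sum]
    apply Finset.sum_congr rfl
    intro i _
    exact (t4_hexp _).2.2.2
  obtain ⟨n, rfl | rfl⟩ := N.eq_nat_or_neg
  · exact h3 n
  · rw [unknotJ_neg, map_neg, h3, neg_zero]

/-- the model up to order three -/
def Bf (c e : ℚ) (N : ℤ) : ℚ⟦X⟧ :=
  unknotJ N + C (c * (N * ((N : ℚ) ^ 2 - 1))) * X ^ 2 + C (e * (N * ((N : ℚ) ^ 2 - 1))) * X ^ 3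

theorem t4_Bf (c e : ℚ) (N : ℤ) : T4 (Bf c e N) N 0 ((c + 1 / 6) * (N * ((N : ℚ) ^ 2 - 1)))
    (e * (N * ((N : ℚ) ^ 2 - 1))) := by
  have h := ((t4_unknotJ N).add (t4_C2 (c * (N * ((N : ℚ) ^ 2 - 1))))).add
    (t4_C3 (e * (N * ((N : ℚ) ^ 2 - 1))))
  obtain ⟨h0, h1, h2, h3⟩ := h
  refine ⟨?_, ?_, ?_, ?_⟩
  · exact h0.trans (by ring)
  · exact h1.trans (by ring)
  · exact h2.trans (by ring)
  · exact h3.trans (by ring)

theorem Bf_neg (c e : ℚ) (N : ℤ) : Bf c e (-N) = - Bf c e N := by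
  unfold Bf
  rw [unknotJ_neg]
  have e1 : ∀ a : ℚ, (C (a * (((-N : ℤ) : ℚ) * (((-N : ℤ) : ℚ) ^ 2 - 1))) : ℚ⟦X⟧) =
        - C (a * (N * ((N : ℚ) ^ 2 - 1))) := by
    intro a
    rw [← map_neg]; congr 1; push_cast; ring
  rw [e1, e1]
  ring

/-- `J` agrees with the model up to order three -/
def L3 (J : ℤ → ℚ⟦X⟧) (c e : ℚ) : Prop := ∀ N : ℤ, X ^ 4 ∣ J N - Bf c e N

theorem L3.t4 {J : ℤ → ℚ⟦X⟧} {c e : ℚ} (h : L3 J c e) (N : ℤ) :
    T4 (J N) N 0 ((c + 1 / 6) * (N * ((N : ℚ) ^ 2 - 1))) (e * (N * ((N : ℚ) ^ 2 - 1))) :=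
  T4.of_dvd (h N) (t4_Bf c e N)

theorem L3.cable {p : ℕ} {q : ℤ} {J : ℤ → ℚ⟦X⟧} {c e : ℚ} (hJ : ∀ N, J (-N) = - J N)
    (h : L3 J c e) : L3 (cableJ p q J) (p ^ 2 * c - ((p : ℚ) ^ 2 - 1) * ((q : ℚ) ^ 2 - 1) / 6)
      (p ^ 2 * e + 2 * p * q / 3 *
        (c - (p ^ 2 * c - ((p : ℚ) ^ 2 - 1) * ((q : ℚ) ^ 2 - 1) / 6))) := by
  intro N
  set c' := (p ^ 2 * c - ((p : ℚ) ^ 2 - 1) * ((q : ℚ) ^ 2 - 1) / 6) with hc'
  set e' := (p ^ 2 * e + 2 * p * q / 3 * (c - c')) with he'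
  apply odd_dvd (D := fun N : ℤ => cableJ p q J N - Bf c' e' N) (c := p * q)
  · intro m
    rw [cableJ_neg, Bf_neg]
    ring
  · intro m
    have e1 : hexp (p * q * m) * (cableJ p q J (m + 1) - Bf c' e' (m + 1)) -
        hexp (-(p * q * m)) * (cableJ p q J (m - 1) - Bf c' e' (m - 1)) =
        (hexp (q * m) * J (p * m + 1) - hexp (-(q * m)) * J (p * m - 1)) -
        (hexp (p * q * m) * Bf c' e' (m + 1) - hexp (-(p * q * m)) * Bf c' e' (m - 1)) := by
      rw [← cableJ_diff hJ]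
      ring
    rw [e1]
    have h1 := ((t4_hexp (q * m)).mul (h.t4 (p * m + 1))).sub
      ((t4_hexp (-(q * m))).mul (h.t4 (p * m - 1)))
    have h2 := ((t4_hexp (p * q * m)).mul (t4_Bf c' e' (m + 1))).sub
      ((t4_hexp (-(p * q * m))).mul (t4_Bf c' e' (m - 1)))
    refine (h1.sub h2).dvd ?_ ?_ ?_ ?_
    · push_cast; ring
    · push_cast; ring
    · rw [hc']; push_cast; ring
    · rw [he', hc']; push_cast; ring

theorem L3.sum {J J' : ℤ → ℚ⟦X⟧} {c e c' e' : ℚ} (h : L3 J c e) (h' : L3 J' c' e')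
    (hJ : J 0 = 0) : L3 (fun N => J N * J' N * (unknotJ N)⁻¹) (c + c') (e + e') := by
  intro N
  rcases eq_or_ne N 0 with rfl | h0
  · beta_reduce
    unfold Bf
    rw [hJ, unknotJ_zero]
    simp
  · obtain ⟨r, hr⟩ := h N
    obtain ⟨s, hs⟩ := h' N
    have hu := mul_unknotJ_cancel h0
    beta_reduce
    unfold Bf at hr hs ⊢
    rw [show ((c + c') * (N * ((N : ℚ) ^ 2 - 1))) = c * (N * ((N : ℚ) ^ 2 - 1)) +
      c' * (N * ((N : ℚ) ^ 2 - 1)) by ring, show ((e + e') * (N * ((N : ℚ) ^ 2 - 1))) =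
      e * (N * ((N : ℚ) ^ 2 - 1)) + e' * (N * ((N : ℚ) ^ 2 - 1)) by ring, map_add, map_add]
    set a := (C (c * (N * ((N : ℚ) ^ 2 - 1))) : ℚ⟦X⟧)
    set a' := (C (c' * (N * ((N : ℚ) ^ 2 - 1))) : ℚ⟦X⟧)
    set b := (C (e * (N * ((N : ℚ) ^ 2 - 1))) : ℚ⟦X⟧)
    set b' := (C (e' * (N * ((N : ℚ) ^ 2 - 1))) : ℚ⟦X⟧)
    have hr' : J N = unknotJ N + a * X ^ 2 + b * X ^ 3 + X ^ 4 * r := by linear_combination hr
    have hs' : J' N = unknotJ N + a' * X ^ 2 + b' * X ^ 3 + X ^ 4 * s := by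
      linear_combination hs
    rw [hr', hs']
    refine ⟨r + s + (a + b * X + X ^ 2 * r) * (a' + b' * X + X ^ 2 * s) * (unknotJ N)⁻¹, ?_⟩
    linear_combination (unknotJ N + a * X ^ 2 + b * X ^ 3 + X ^ 4 * r +
      a' * X ^ 2 + b' * X ^ 3 + X ^ 4 * s) * hu

theorem graph_L3 (K : GraphKnot) : ∃ c e : ℚ, L3 (colouredJones K) c e := by
  induction K with
  | unknot =>
    refine ⟨0, 0, fun N => ?_⟩
    unfold Bf
    simp [colouredJones]
  | cable p q hp hq K ih =>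
    obtain ⟨c, e, h⟩ := ih
    exact ⟨_, _, L3.cable (colouredJones_odd K) h⟩
  | sum K L hK hL =>
    obtain ⟨c, e, h⟩ := hK
    obtain ⟨c', e', h'⟩ := hL
    exact ⟨_, _, L3.sum h h' (colouredJones_zero K)⟩

theorem graph_L3' (K : GraphKnot) : ∃ c e : ℚ, L3 (colouredJones K) c e ∧ c ≤ 0 ∧
    (c = 0 → Isotopic K GraphKnot.unknot) := by
  obtain ⟨c, e, h⟩ := graph_L3 K
  obtain ⟨c', hc', hL, hI⟩ := graph_lead K
  have h1 := (h.t4 2).2.2.1
  have h2 := (hL.tr 2).2.2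
  rw [h1] at h2
  have : c = c' := by
    push_cast at h2
    linarith
  exact ⟨c, e, h, by rw [this]; exact hc', by rw [this]; exact hI⟩

/-! the first two annulus coefficients -/

theorem qfac_two : qfac 2 = unknotJ 2 := by
  rw [show (2 : ℕ) = 1 + 1 from rfl, qfac_succ, qfac_one, one_mul]
  rfl

theorem qfac_three : qfac 3 = unknotJ 2 * unknotJ 3 := by
  rw [show (3 : ℕ) = 2 + 1 from rfl, qfac_succ, qfac_two]
  rfl

theorem qfac_four : qfac 4 = unknotJ 2 * unknotJ 3 * unknotJ 4 := by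
  rw [show (4 : ℕ) = 3 + 1 from rfl, qfac_succ, qfac_three]
  rfl

theorem qfac_five : qfac 5 = unknotJ 2 * unknotJ 3 * unknotJ 4 * unknotJ 5 := by
  rw [show (5 : ℕ) = 4 + 1 from rfl, qfac_succ, qfac_four]
  rfl

theorem inv_mul_inv {a b c : ℚ⟦X⟧} (ha : constantCoeff a ≠ 0) (h : a * b = c) : a⁻¹ * c = b := by
  rw [← h, ← mul_assoc, PowerSeries.inv_mul_cancel _ ha, one_mul]

theorem annulus_first {J : ℤ → ℚ⟦X⟧} (h1 : J 1 = 1) (m : ℤ) :
    unknotJ 2 * unknotJ 3 * annulus J m 1 = hexp (4 * m) * J 3 - unknotJ 3 := by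
  unfold annulus
  rw [Finset.sum_range_succ, Finset.sum_range_one]
  simp only [Nat.cast_zero, mul_zero, zero_add, Nat.sub_zero, Nat.cast_one, mul_one, pow_one,
    Nat.sub_self, pow_zero, one_mul, qfac_one, qfac_zero]
  norm_num only
  rw [hexp_zero, h1, qfac_two, qfac_three]
  have c2 : constantCoeff (unknotJ 2) ≠ 0 := by rw [coeff_zero_unknotJ]; norm_num
  have c3 : constantCoeff (unknotJ 3) ≠ 0 := by rw [coeff_zero_unknotJ]; norm_num
  have i1 := PowerSeries.mul_inv_cancel (unknotJ 2) c2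
  have i2 := PowerSeries.mul_inv_cancel (unknotJ 2 * unknotJ 3)
    (by rw [map_mul]; exact mul_ne_zero c2 c3)
  rw [show (2 * (m : ℚ) * 2) = 4 * m by ring]
  linear_combination (-unknotJ 3) * i1 + (hexp (4 * m) * J 3) * i2

theorem annulus_second {J : ℤ → ℚ⟦X⟧} (h1 : J 1 = 1) (m : ℤ) :
    unknotJ 2 * unknotJ 3 * unknotJ 4 * unknotJ 5 * annulus J m 2 =
      unknotJ 4 * unknotJ 5 - unknotJ 2 * unknotJ 5 * (hexp (4 * m) * J 3) +
        unknotJ 2 * (hexp (12 * m) * J 5) := by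
  unfold annulus
  rw [Finset.sum_range_succ, Finset.sum_range_succ, Finset.sum_range_one]
  simp only [Nat.cast_zero, mul_zero, zero_add, Nat.sub_zero, Nat.cast_one, mul_one,
    Nat.sub_self, pow_zero, one_mul, Nat.cast_ofNat, qfac_zero]
  norm_num only
  rw [hexp_zero, h1, qfac_two, qfac_three, qfac_four, qfac_five]
  have c2 : constantCoeff (unknotJ 2) ≠ 0 := by rw [coeff_zero_unknotJ]; norm_num
  have c3 : constantCoeff (unknotJ 3) ≠ 0 := by rw [coeff_zero_unknotJ]; norm_num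
  have c4 : constantCoeff (unknotJ 4) ≠ 0 := by rw [coeff_zero_unknotJ]; norm_num
  have c5 : constantCoeff (unknotJ 5) ≠ 0 := by rw [coeff_zero_unknotJ]; norm_num
  have i1 := PowerSeries.mul_inv_cancel (unknotJ 2 * (unknotJ 2 * unknotJ 3))
    (by simp only [map_mul]; exact mul_ne_zero c2 (mul_ne_zero c2 c3))
  have i2 := PowerSeries.mul_inv_cancel (unknotJ 2 * unknotJ 3 * unknotJ 4)
    (by simp only [map_mul]; exact mul_ne_zero (mul_ne_zero c2 c3) c4)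
  have i3 := PowerSeries.mul_inv_cancel (unknotJ 2 * unknotJ 3 * unknotJ 4 * unknotJ 5)
    (by simp only [map_mul]; exact mul_ne_zero (mul_ne_zero (mul_ne_zero c2 c3) c4) c5)
  rw [show (2 * (m : ℚ) * 2) = 4 * m by ring, show (4 * (m : ℚ) * 3) = 12 * m by ring, qfac_one,
    one_mul (unknotJ 2 * unknotJ 3 * unknotJ 4)]
  linear_combination (unknotJ 4 * unknotJ 5) * i1 -
    (unknotJ 2 * unknotJ 5 * (hexp (4 * m) * J 3)) * i2 +
    (unknotJ 2 * (hexp (12 * m) * J 5)) * i3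

/-- same clasp -/
theorem double_same {J J' : ℤ → ℚ⟦X⟧} {m m' ε : ℤ} (hε : ε = 1 ∨ ε = -1) (h1 : J 1 = 1)
    (h1' : J' 1 = 1) (hp : PF J) (hp' : PF J') (h2 : ∀ N, X ^ 2 ∣ J N - unknotJ N)
    (h2' : ∀ N, X ^ 2 ∣ J' N - unknotJ N)
    (h : ∀ N : ℕ, doubleJ m ε J N = doubleJ m' ε J' N) : m = m' ∧ J = J' := by
  have hb : ∀ i, annulus J m i = annulus J' m' i := fun i =>
    mul_right_cancel₀ (annulus_clasp_ne hε i) (plumb_determines h i)
  have hm : m = m' := by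
    have e1 := annulus_first h1 m
    rw [hb 1, annulus_first h1' m'] at e1
    have e2 := congrArg (coeff 1) e1
    have hc : ∀ {J : ℤ → ℚ⟦X⟧}, (∀ N, X ^ 2 ∣ J N - unknotJ N) → ∀ a : ℚ,
        coeff 1 (hexp a * J 3 - unknotJ 3) = 3 * a := by
      intro J h2 a
      obtain ⟨r, hr⟩ := h2 3
      have h3 : J 3 = unknotJ 3 + X ^ 2 * r := by rw [← hr]; ring
      have t := ((t4_hexp a).mul (t4_unknotJ 3)).2.1
      have t3 := (t4_unknotJ 3).2.1
      rw [h3, mul_add, map_sub, map_add, t, t3, show hexp a * (X ^ 2 * r) = X ^ 2 * (hexp a * r) by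
        ring, coeff_X_pow_mul', if_neg (by norm_num)]
      push_cast
      ring
    rw [hc h2, hc h2'] at e2
    have : (m : ℚ) = m' := by linarith
    exact_mod_cast this
  subst hm
  exact ⟨rfl, double_injective hε hp hp' h⟩

theorem dl_neg (ε : ℤ) : dl (-ε) = - dl ε := by
  unfold dl
  push_cast
  rw [neg_neg]
  ring

/-- opposite clasps -/
theorem double_opposite {J J' : ℤ → ℚ⟦X⟧} {m m' ε : ℤ} {c e c' e' : ℚ} (hε : ε = 1 ∨ ε = -1)
    (h1 : J 1 = 1) (h1' : J' 1 = 1) (hL : L3 J c e) (hL' : L3 J' c' e')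
    (h : ∀ N : ℕ, doubleJ m ε J N = doubleJ m' (-ε) J' N) :
    m' = -m ∧ (m = 0 ∨ m = -ε) ∧ c + c' = 0 := by
  have hε' : -ε = 1 ∨ -ε = -1 := by omega
  have hb := plumb_determines (i := 1) h
  have hb2 := plumb_determines (i := 2) h
  rw [annulus_clasp hε, annulus_clasp hε', dl_neg] at hb hb2
  have hd := dl_ne hε
  have s1 : (hexp (4 * m) * J 3 - unknotJ 3) * hexp (2 * ε) =
      -((hexp (4 * m') * J' 3 - unknotJ 3) * hexp (-(2 * ε))) := by
    rw [← annulus_first h1, ← annulus_first h1']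
    apply mul_right_cancel₀ hd
    rw [show ((ε : ℚ) * (((1 : ℕ) : ℚ) * (((1 : ℕ) : ℚ) + 3)) / 2) = 2 * ε by push_cast; ring,
      show (((-ε : ℤ) : ℚ) * (((1 : ℕ) : ℚ) * (((1 : ℕ) : ℚ) + 3)) / 2) = -(2 * ε) by
        push_cast; ring, pow_one, pow_one] at hb
    linear_combination (unknotJ 2 * unknotJ 3) * hb
  have s2 : (unknotJ 4 * unknotJ 5 - unknotJ 2 * unknotJ 5 * (hexp (4 * m) * J 3) +
        unknotJ 2 * (hexp (12 * m) * J 5)) * hexp (5 * ε) =
      (unknotJ 4 * unknotJ 5 - unknotJ 2 * unknotJ 5 * (hexp (4 * m') * J' 3) +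
        unknotJ 2 * (hexp (12 * m') * J' 5)) * hexp (-(5 * ε)) := by
    rw [← annulus_second h1, ← annulus_second h1']
    apply mul_right_cancel₀ (pow_ne_zero 2 hd)
    rw [show ((ε : ℚ) * (((2 : ℕ) : ℚ) * (((2 : ℕ) : ℚ) + 3)) / 2) = 5 * ε by push_cast; ring,
      show (((-ε : ℤ) : ℚ) * (((2 : ℕ) : ℚ) * (((2 : ℕ) : ℚ) + 3)) / 2) = -(5 * ε) by
        push_cast; ring] at hb2
    linear_combination (unknotJ 2 * unknotJ 3 * unknotJ 4 * unknotJ 5) * hb2
  have a1 := (((t4_hexp (4 * m)).mul (hL.t4 3)).sub (t4_unknotJ 3)).mul (t4_hexp (2 * ε))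
  have a2 := (((t4_hexp (4 * m')).mul (hL'.t4 3)).sub (t4_unknotJ 3)).mul (t4_hexp (-(2 * ε)))
  have b1 := ((((t4_unknotJ 4).mul (t4_unknotJ 5)).sub (((t4_unknotJ 2).mul (t4_unknotJ 5)).mul
    ((t4_hexp (4 * m)).mul (hL.t4 3)))).add ((t4_unknotJ 2).mul ((t4_hexp (12 * m)).mul
    (hL.t4 5)))).mul (t4_hexp (5 * ε))
  have b2 := ((((t4_unknotJ 4).mul (t4_unknotJ 5)).sub (((t4_unknotJ 2).mul (t4_unknotJ 5)).mul
    ((t4_hexp (4 * m')).mul (hL'.t4 3)))).add ((t4_unknotJ 2).mul ((t4_hexp (12 * m')).mul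
    (hL'.t4 5)))).mul (t4_hexp (-(5 * ε)))
  have hεq : (ε : ℚ) ^ 2 = 1 := by rcases hε with rfl | rfl <;> norm_num
  -- first coefficient
  have q1 := a1.2.1
  rw [s1, map_neg, a2.2.1] at q1
  have q2 := a1.2.2.1
  rw [s1, map_neg, a2.2.2.1] at q2
  have q3 := b1.2.2.2
  rw [s2, b2.2.2.2] at q3
  push_cast at q1 q2 q3
  have hm : (m' : ℚ) = -m := by linarith
  have hmz : m' = -m := by exact_mod_cast hm
  rw [hm] at q2 q3
  have k1 : 2 * (m : ℚ) * (m + ε) + (c + c') = 0 := by linear_combination (-1 / 24 : ℚ) * q2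
  have k2 : (m : ℚ) * (15 * ε * m + 16 * m ^ 2 - 1 + 6 * (c + c')) = 0 := by
    linear_combination (-1 / 320 : ℚ) * q3
  have hA : m = 0 ∨ m = -ε := by
    rcases mul_eq_zero.mp k2 with h0 | h0
    · left; exact_mod_cast h0
    · right
      have h3 : 4 * (m : ℚ) ^ 2 + 3 * ε * m - 1 = 0 := by linear_combination h0 - 6 * k1
      have h4 : 4 * m ^ 2 + 3 * ε * m - 1 = 0 := by exact_mod_cast h3
      rcases hε with rfl | rfl
      · have h5 : (4 * m - 1) * (m + 1) = 0 := by linear_combination h4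
        rcases mul_eq_zero.mp h5 with h6 | h6
        · omega
        · omega
      · have h5 : (4 * m + 1) * (m - 1) = 0 := by linear_combination h4
        rcases mul_eq_zero.mp h5 with h6 | h6
        · omega
        · omega
  refine ⟨hmz, hA, ?_⟩
  rcases hA with h0 | h0
  · rw [h0] at k1
    push_cast at k1
    linarith
  · rw [h0] at k1
    push_cast at k1
    linarith

theorem double_unknot (ε : ℤ) : doubleJ 0 ε unknotJ = unknotJ := by
  unfold doubleJ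
  apply plumb_trivial unknotJ_one unknotJ_one
  intro i hi
  rw [annulus_unknot i hi, zero_mul]

theorem double_figure_eight (ε : ℤ) : doubleJ (-ε) ε unknotJ = doubleJ ε (-ε) unknotJ := by
  unfold doubleJ plumbJ
  funext N
  refine congrArg (fun x => unknotJ N * x) (Finset.sum_congr rfl fun i _ => ?_)
  rw [mul_comm (annulus unknotJ (-ε) i)]

/-- the classification of the twisted Whitehead doubles of graph knots -/
theorem double_graph {m m' ε ε' : ℤ} (hε : ε = 1 ∨ ε = -1) (hε' : ε' = 1 ∨ ε' = -1)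
    (K K' : GraphKnot) :
    (∀ N : ℕ, doubleJ m ε (colouredJones K) N = doubleJ m' ε' (colouredJones K') N) ↔
      (Isotopic K K' ∧ m = m' ∧ ε = ε') ∨
      (Isotopic K GraphKnot.unknot ∧ Isotopic K' GraphKnot.unknot ∧
        ((m = 0 ∧ m' = 0) ∨ (m = -ε ∧ m' = -ε'))) := by
  have hsep : ∀ K K' : GraphKnot, colouredJones K = colouredJones K' → Isotopic K K' := by
    intro K K' h
    apply (graph_main K K').mp
    intro N n
    rw [h]
  have htwo : ∀ (K : GraphKnot) (N : ℤ), X ^ 2 ∣ colouredJones K N - unknotJ N := by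
    intro K N
    obtain ⟨c, _, hL, _⟩ := graph_lead K
    exact hL.dvd_two le_rfl N
  constructor
  · intro h
    rcases eq_or_ne ε ε' with rfl | hne
    · left
      obtain ⟨h1, h2⟩ := double_same hε (colouredJones_one K) (colouredJones_one K')
        (PF.graph K) (PF.graph K') (htwo K) (htwo K') h
      exact ⟨hsep K K' h2, h1, rfl⟩
    · right
      have e : ε' = -ε := by omega
      subst e
      obtain ⟨c, a, hL, hc, hI⟩ := graph_L3' K
      obtain ⟨c', a', hL', hc', hI'⟩ := graph_L3' K'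
      obtain ⟨h1, h2, h3⟩ := double_opposite hε (colouredJones_one K) (colouredJones_one K')
        hL hL' h
      refine ⟨hI (by linarith), hI' (by linarith), ?_⟩
      rcases h2 with h2 | h2
      · left; exact ⟨h2, by omega⟩
      · right; exact ⟨h2, by omega⟩
  · rintro (⟨h, rfl, rfl⟩ | ⟨h, h', hm⟩) N
    · rw [h.colouredJones_eq]
    · rw [h.colouredJones_eq, h'.colouredJones_eq]
      change doubleJ m ε unknotJ N = doubleJ m' ε' unknotJ N
      rcases hm with ⟨rfl, rfl⟩ | ⟨rfl, rfl⟩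
      · rw [double_unknot, double_unknot]
      · rcases hε with rfl | rfl <;> rcases hε' with rfl | rfl
        · rfl
        · exact congrFun (double_figure_eight 1) _
        · exact (congrFun (double_figure_eight 1) _).symm
        · rfl

end

end Pool.Agent.H765.ST
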