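import Mathlib
import Pool.Agent.H765.ST.Cls

/-! Cabling, connected sum and Whitehead doubling preserve the class of knot functions and are
injective. -/

namespace Pool.Agent.H765.ST

open PowerSeries GK DB

noncomputable section

theorem KnotFn.zero {J : ℤ → ℚ⟦X⟧} (h : KnotFn J) : J 0 = 0 := by
  have h1 := h.odd 0
  rw [neg_zero] at h1
  have h2 : (2 : ℚ) • J 0 = 0 := by
    rw [two_smul]
    nth_rewrite 1 [h1]
    exact neg_add_cancel _
  exact (smul_eq_zero.mp h2).resolve_left two_ne_zero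

theorem knotFn_unknot : KnotFn unknotJ :=
  ⟨unknotJ_neg, unknotJ_one, PF.unknot, fun N => by rw [sub_self]; exact dvd_zero _⟩

/-- the coefficients up to degree one -/
def T2 (f : ℚ⟦X⟧) (a b : ℚ) : Prop := coeff 0 f = a ∧ coeff 1 f = b

theorem T2.mul {f g : ℚ⟦X⟧} {a b a' b' : ℚ} (h : T2 f a b) (h' : T2 g a' b') :
    T2 (f * g) (a * a') (a * b' + b * a') := by
  obtain ⟨h0, h1⟩ := h
  obtain ⟨k0, k1⟩ := h'
  refine ⟨?_, ?_⟩
  · rw [coeff_mul_range, Finset.sum_range_one, Nat.sub_zero, h0, k0]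
  · rw [coeff_mul_range, Finset.sum_range_succ, Finset.sum_range_one, Nat.sub_zero, Nat.sub_self,
      h0, k0, h1, k1]

theorem T2.sub {f g : ℚ⟦X⟧} {a b a' b' : ℚ} (h : T2 f a b) (h' : T2 g a' b') :
    T2 (f - g) (a - a') (b - b') :=
  ⟨by rw [map_sub, h.1, h'.1], by rw [map_sub, h.2, h'.2]⟩

theorem T2.dvd {f : ℚ⟦X⟧} {a b : ℚ} (h : T2 f a b) (ha : a = 0) (hb : b = 0) : X ^ 2 ∣ f := by
  rw [X_pow_dvd_iff]
  intro m hm
  obtain ⟨h0, h1⟩ := h
  interval_cases m
  · rw [h0, ha]
  · rw [h1, hb]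

theorem t2_hexp (b : ℚ) : T2 (hexp b) 1 b := ⟨(t4_hexp b).1, (t4_hexp b).2.1⟩

theorem KnotFn.t2 {J : ℤ → ℚ⟦X⟧} (h : KnotFn J) (N : ℤ) : T2 (J N) N 0 := by
  have h1 := h.two N
  rw [X_pow_dvd_iff] at h1
  have e0 := h1 0 (by norm_num)
  have e1 := h1 1 (by norm_num)
  rw [map_sub, (t4_unknotJ N).1] at e0
  rw [map_sub, (t4_unknotJ N).2.1] at e1
  exact ⟨by linarith, by linarith⟩

theorem KnotFn.cable {J : ℤ → ℚ⟦X⟧} (h : KnotFn J) (p : ℕ) (q : ℤ) : KnotFn (cableJ p q J) := by
  refine ⟨cableJ_neg _ _ _, cable_one p q h.one, PF.cable h.odd h.poly p q, ?_⟩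
  intro N
  apply odd_dvd (D := fun N : ℤ => cableJ p q J N - unknotJ N) (c := p * q)
  · intro m
    rw [cableJ_neg, unknotJ_neg]
    ring
  · intro m
    have e1 : hexp (p * q * m) * (cableJ p q J (m + 1) - unknotJ (m + 1)) -
        hexp (-(p * q * m)) * (cableJ p q J (m - 1) - unknotJ (m - 1)) =
        (hexp (q * m) * J (p * m + 1) - hexp (-(q * m)) * J (p * m - 1)) -
        (hexp (p * q * m) * unknotJ (m + 1) - hexp (-(p * q * m)) * unknotJ (m - 1)) := by
      rw [← cableJ_diff h.odd]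
      ring
    rw [e1]
    refine ((((t2_hexp (q * m)).mul (h.t2 (p * m + 1))).sub
      ((t2_hexp (-(q * m))).mul (h.t2 (p * m - 1)))).sub
      (((t2_hexp (p * q * m)).mul (knotFn_unknot.t2 (m + 1))).sub
      ((t2_hexp (-(p * q * m))).mul (knotFn_unknot.t2 (m - 1))))).dvd ?_ ?_
    · push_cast; ring
    · push_cast; ring

theorem KnotFn.sum {J L : ℤ → ℚ⟦X⟧} (h : KnotFn J) (hL : KnotFn L) :
    KnotFn (fun N => J N * L N * (unknotJ N)⁻¹) := by
  refine ⟨fun N => ?_, ?_, PF.sum h.poly h.zero hL.poly hL.zero, fun N => ?_⟩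
  · rw [h.odd, hL.odd, unknotJ_neg, inv_neg_unknotJ]
    ring
  · rw [h.one, hL.one, unknotJ_one]
    simp
  · rcases eq_or_ne N 0 with rfl | h0
    · rw [h.zero, unknotJ_zero]
      simp
    · obtain ⟨r, hr⟩ := h.two N
      obtain ⟨s, hs⟩ := hL.two N
      have hr' : J N = unknotJ N + X ^ 2 * r := by rw [← hr]; ring
      have hs' : L N = unknotJ N + X ^ 2 * s := by rw [← hs]; ring
      have hu := mul_unknotJ_cancel h0
      rw [hr', hs']
      refine ⟨r + s + X ^ 2 * r * s * (unknotJ N)⁻¹, ?_⟩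
      linear_combination (unknotJ N + X ^ 2 * r + X ^ 2 * s) * hu

theorem dl_dvd (s : ℤ) : (X : ℚ⟦X⟧) ∣ dl s := by
  have h1 := X_dvd_hexp_sub (s : ℚ)
  have h2 := X_dvd_hexp_sub (-(s : ℚ))
  have := dvd_sub h1 h2
  unfold dl
  exact dvd_of_eq_of_dvd (by ring) this

theorem clasp_dvd {s : ℤ} (hs : s = 1 ∨ s = -1) (i : ℕ) : (X : ℚ⟦X⟧) ^ i ∣ annulus unknotJ s i := by
  rw [annulus_clasp hs]
  exact Dvd.dvd.mul_left (pow_dvd_pow_of_dvd (dl_dvd s) i) _

theorem PF.double (J : ℤ → ℚ⟦X⟧) (m : ℤ) {ε : ℤ} (hε : ε = 1 ∨ ε = -1) :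
    PF (doubleJ m ε J) := by
  intro n
  let g : ℤ → ℕ → ℚ⟦X⟧ := fun N i => (-1) ^ i *
    (∏ j ∈ Finset.range i, unknotJ (N + (j + 1)) * unknotJ (N - (j + 1))) *
    (annulus J m i * annulus unknotJ ε i)
  have hprod : ∀ i : ℕ, PF (fun N : ℤ => ∏ j ∈ Finset.range i,
      unknotJ (N + (j + 1)) * unknotJ (N - (j + 1))) := by
    intro i
    induction i with
    | zero => simpa using PF.const 1
    | succ i ih =>
      have h1 : PF (fun N : ℤ => unknotJ (1 * N + (i + 1)) * unknotJ (1 * N + (-(i + 1)))) :=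
        (PF.unknot.comp 1 (i + 1)).mul (PF.unknot.comp 1 (-(i + 1)))
      apply (ih.mul h1).congr
      intro N
      rw [Finset.prod_range_succ, one_mul, ← sub_eq_add_neg]
  have hg : ∀ i : ℕ, PF (fun N => g N i) := by
    intro i
    exact ((PF.const ((-1) ^ i)).mul (hprod i)).mul
      (PF.const (annulus J m i * annulus unknotJ ε i))
  have hsum : ∀ n : ℕ, PF (fun N => ∑ i ∈ Finset.range n, g N i) := by
    intro n
    induction n with
    | zero => simpa using PF.const 0
    | succ n ih =>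
      apply (ih.add (hg n)).congr
      intro N
      rw [Finset.sum_range_succ]
  obtain ⟨P, hP⟩ := (PF.unknot.mul (hsum (n + 1))) n
  refine ⟨P, fun N => ?_⟩
  rw [← hP]
  have e0 : doubleJ m ε J N = unknotJ N * ∑ i ∈ Finset.range N.natAbs, g N i := rfl
  rw [e0]
  rcases eq_or_ne N 0 with rfl | hN
  · beta_reduce
    rw [unknotJ_zero, zero_mul, zero_mul]
  set M := max N.natAbs (n + 1) with hM
  have e1 : ∑ i ∈ Finset.range N.natAbs, g N i = ∑ i ∈ Finset.range M, g N i := by
    apply Finset.sum_subset (Finset.range_subset_range.mpr (le_max_left _ _))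
    intro i _ hi
    rw [Finset.mem_range, not_lt] at hi
    have : (∏ j ∈ Finset.range i, unknotJ (N + (j + 1)) * unknotJ (N - (j + 1))) = 0 := by
      apply Finset.prod_eq_zero (Finset.mem_range.mpr (show N.natAbs - 1 < i by omega))
      rcases Int.natAbs_eq N with h2 | h2
      · have : N - (((N.natAbs - 1 : ℕ) : ℤ) + 1) = 0 := by omega
        rw [this, unknotJ_zero, mul_zero]
      · have : N + (((N.natAbs - 1 : ℕ) : ℤ) + 1) = 0 := by omega
        rw [this, unknotJ_zero, zero_mul]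
    simp only [g]
    rw [this]
    ring
  have hle : n + 1 ≤ M := le_max_right _ _
  have e2 : (X : ℚ⟦X⟧) ^ (n + 1) ∣ ∑ i ∈ Finset.range M, g N i -
      ∑ i ∈ Finset.range (n + 1), g N i := by
    rw [← Finset.sum_range_add_sum_Ico _ hle, add_sub_cancel_left]
    apply Finset.dvd_sum
    intro i hi
    have hi' := (Finset.mem_Ico.mp hi).1
    simp only [g]
    apply Dvd.dvd.mul_left
    apply Dvd.dvd.mul_left
    exact (pow_dvd_pow _ hi').trans (clasp_dvd hε i)
  beta_reduce
  rw [e1]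
  have e3 := Dvd.dvd.mul_left e2 (unknotJ N)
  rw [X_pow_dvd_iff] at e3
  have e4 := e3 n (Nat.lt_succ_self n)
  rw [mul_sub, map_sub] at e4
  linarith

theorem KnotFn.double {J : ℤ → ℚ⟦X⟧} (h : KnotFn J) (m : ℤ) {ε : ℤ} (hε : ε = 1 ∨ ε = -1) :
    KnotFn (doubleJ m ε J) := by
  refine ⟨plumb_neg _ _ _ _, plumb_one h.one unknotJ_one _ _, PF.double J m hε, fun N => ?_⟩
  rcases eq_or_ne N 0 with rfl | h0
  · unfold doubleJ
    rw [plumb_zero, unknotJ_zero, sub_self]
    exact dvd_zero _
  · unfold doubleJ plumbJ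
    obtain ⟨M, hM⟩ : ∃ M, N.natAbs = M + 1 := ⟨N.natAbs - 1, by omega⟩
    rw [hM, Finset.sum_range_succ', annulus_zero h.one, annulus_zero unknotJ_one]
    simp only [pow_zero, Finset.prod_range_zero, mul_one]
    rw [mul_add, mul_one, add_sub_cancel_right]
    apply Dvd.dvd.mul_left
    apply Finset.dvd_sum
    intro i _
    apply Dvd.dvd.mul_left
    rcases eq_or_ne (i + 1) 1 with h1 | h1
    · rw [h1]
      have e1 := annulus_first h.one m
      have e2 : constantCoeff (unknotJ 2 * unknotJ 3 * annulus J m 1) = 0 := by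
        rw [e1, map_sub, map_mul]
        have t1 := (h.t2 3).1
        have t2 := (t2_hexp (4 * m)).1
        have t3 := (knotFn_unknot.t2 3).1
        rw [coeff_zero_eq_constantCoeff_apply] at t1 t2 t3
        rw [t1, t2, t3]
        ring
      have e4 : (X : ℚ⟦X⟧) ∣ annulus J m 1 := by
        rw [X_dvd_iff]
        rw [map_mul, map_mul, coeff_zero_unknotJ, coeff_zero_unknotJ] at e2
        rcases mul_eq_zero.mp e2 with e3 | e3
        · norm_num at e3
        · exact e3
      have e5 : (X : ℚ⟦X⟧) ∣ annulus unknotJ ε 1 :=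
        (dvd_pow_self _ one_ne_zero).trans (clasp_dvd hε 1)
      have := mul_dvd_mul e4 e5
      rw [← pow_two] at this
      exact this
    · apply Dvd.dvd.mul_left
      exact (pow_dvd_pow _ (by omega)).trans (clasp_dvd hε (i + 1))

/-- The operations: `(p, q)`-cabling, connected sum with a fixed knot, Whitehead doubling with
given twist and clasp. -/
inductive Op : Type
  | cable (p : ℕ) (q : ℤ) (hp : p ≠ 0) : Op
  | sum (L : ℤ → ℚ⟦X⟧) (hL : KnotFn L) : Op
  | double (m ε : ℤ) (hε : ε = 1 ∨ ε = -1) : Op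

/-- the effect of an operation on coloured Jones functions -/
def Op.app : Op → (ℤ → ℚ⟦X⟧) → ℤ → ℚ⟦X⟧
  | .cable p q _, J => cableJ p q J
  | .sum L _, J => fun N => J N * L N * (unknotJ N)⁻¹
  | .double m ε _, J => doubleJ m ε J

/-- the effect of a word of operations -/
def word (W : List Op) (J : ℤ → ℚ⟦X⟧) : ℤ → ℚ⟦X⟧ := W.foldr Op.app J

theorem KnotFn.app {J : ℤ → ℚ⟦X⟧} (h : KnotFn J) (o : Op) : KnotFn (o.app J) := by
  cases o with
  | cable p q hp => exact h.cable p q
  | sum L hL => exact h.sum hL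
  | double m ε hε => exact h.double m hε

theorem KnotFn.word {J : ℤ → ℚ⟦X⟧} (h : KnotFn J) (W : List Op) : KnotFn (word W J) := by
  induction W with
  | nil => exact h
  | cons o W ih => exact ih.app o

theorem cable_injective {p : ℕ} (hp : p ≠ 0) (q : ℤ) {J J' : ℤ → ℚ⟦X⟧} (h : KnotFn J)
    (h' : KnotFn J') (he : cableJ p q J = cableJ p q J') : J = J' := by
  have hpq : (p : ℤ) ≠ 0 := by exact_mod_cast hp
  have key : ∀ m : ℤ, hexp (q * m) * (J (p * m + 1) - J' (p * m + 1)) =
      hexp (-(q * m)) * (J (p * m + (-1)) - J' (p * m + (-1))) := by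
    intro m
    have e1 := cableJ_diff (p := p) (q := q) h.odd m
    have e2 := cableJ_diff (p := p) (q := q) h'.odd m
    rw [he] at e1
    rw [← sub_eq_add_neg]
    linear_combination e2 - e1
  by_contra hne
  have hDp : PF (fun N => J N - J' N) := PF.sub h.poly h'.poly
  have hex : ∃ n, ∃ N : ℤ, coeff n (J N - J' N) ≠ 0 := by
    by_contra hall
    push Not at hall
    apply hne
    funext N
    ext n
    have := hall n N
    rw [map_sub] at this
    linarith
  classical
  let n := Nat.find hex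
  have hn : ∃ N : ℤ, coeff n (J N - J' N) ≠ 0 := Nat.find_spec hex
  have hlt : ∀ i < n, ∀ N : ℤ, coeff i (J N - J' N) = 0 := by
    intro i hi N
    by_contra hc
    exact Nat.find_min hex hi ⟨N, hc⟩
  obtain ⟨f, hf⟩ := hDp n
  have hco : ∀ (b : ℚ) (N : ℤ), coeff n (hexp b * (J N - J' N)) = f.eval (N : ℚ) := by
    intro b N
    rw [coeff_mul_range, Finset.sum_range_succ', Finset.sum_eq_zero, zero_add, Nat.sub_zero, hf,
      (t2_hexp b).1, one_mul]
    intro i hi
    have := Finset.mem_range.mp hi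
    rw [hlt (n - (i + 1)) (by omega), mul_zero]
  have h0 : f.eval 0 = 0 := by
    have := hf 0
    beta_reduce at this
    rw [h.zero, h'.zero, sub_self, map_zero] at this
    simpa using this.symm
  have h5 : f = 0 := by
    apply poly_shift_zero hpq h0
    intro M
    have := congrArg (coeff n) (key (M + 1))
    rw [hco, hco] at this
    push_cast at this ⊢
    rw [sub_eq_add_neg]
    exact this
  obtain ⟨N, hN⟩ := hn
  exact hN (by rw [hf, h5, Polynomial.eval_zero])

theorem sum_injective {L : ℤ → ℚ⟦X⟧} (hL : KnotFn L) {J J' : ℤ → ℚ⟦X⟧} (h : KnotFn J)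
    (h' : KnotFn J') (he : (fun N => J N * L N * (unknotJ N)⁻¹) =
      fun N => J' N * L N * (unknotJ N)⁻¹) : J = J' := by
  funext N
  rcases eq_or_ne N 0 with rfl | h0
  · rw [h.zero, h'.zero]
  · have e := congrFun he N
    beta_reduce at e
    have hL0 : L N ≠ 0 := by
      intro h1
      have := (hL.t2 N).1
      rw [h1, map_zero] at this
      exact h0 (by exact_mod_cast this.symm)
    have hu : (unknotJ N)⁻¹ ≠ 0 := by
      intro h1
      have := mul_unknotJ_cancel h0
      rw [h1, mul_zero] at this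
      exact zero_ne_one this
    exact mul_right_cancel₀ hL0 (mul_right_cancel₀ hu e)

/-- every word of operations is injective on knot functions -/
theorem word_injective (W : List Op) {J J' : ℤ → ℚ⟦X⟧} (h : KnotFn J) (h' : KnotFn J')
    (he : word W J = word W J') : J = J' := by
  induction W with
  | nil => exact he
  | cons o W ih =>
    apply ih
    have k := h.word W
    have k' := h'.word W
    cases o with
    | cable p q hp => exact cable_injective hp q k k' he
    | sum L hL => exact sum_injective hL k k' he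
    | double m ε hε =>
      exact double_injective hε k.poly k'.poly fun N => congrFun he N

theorem knotFn_graph (K : GraphKnot) : KnotFn (colouredJones K) := by
  refine ⟨colouredJones_odd K, colouredJones_one K, PF.graph K, fun N => ?_⟩
  obtain ⟨c, _, hL, _⟩ := graph_lead K
  exact hL.dvd_two le_rfl N

end

end Pool.Agent.H765.ST
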