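import Mathlib
import Pool.Agent.H765.ST.Ops

/-! The class of knots whose knottedness is detected by coloured Jones polynomials is closed under
satellites. -/

namespace Pool.Agent.H765.ST

open PowerSeries GK DB

noncomputable section

/-- The knots obtained from the unknot and from given knots (the seeds, indexed by `ι`) by
`(p, ± 1)`-cabling and by Whitehead doubling with `m` full twists and clasp `ε = ± 1`. -/
inductive DKnot (ι : Type) : Type
  | unknot : DKnot ι
  | seed (i : ι) : DKnot ι
  | cable (p : ℕ) (ε : ℤ) (hp : 2 ≤ p) (hε : ε = 1 ∨ ε = -1) (K : DKnot ι) : DKnot ι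
  | double (m ε : ℤ) (hε : ε = 1 ∨ ε = -1) (K : DKnot ι) : DKnot ι

variable {ι : Type}

/-- The coloured Jones function, given those of the seeds. -/
def DKnot.jones (F : ι → ℤ → ℚ⟦X⟧) : DKnot ι → ℤ → ℚ⟦X⟧
  | .unknot => unknotJ
  | .seed i => F i
  | .cable p ε _ _ K => cableJ p ε (K.jones F)
  | .double m ε _ K => doubleJ m ε (K.jones F)

/-- The unknots among these knots (the seeds are knotted): `(p, ± 1)`-cables and untwisted doubles
of unknots. -/
def DKnot.Trivial : DKnot ι → Prop
  | .unknot => True
  | .seed _ => False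
  | .cable _ _ _ _ K => K.Trivial
  | .double m _ _ K => m = 0 ∧ K.Trivial

theorem DKnot.main {F : ι → ℤ → ℚ⟦X⟧} (hF : ∀ i, KnotFn (F i)) (hne : ∀ i, F i ≠ unknotJ)
    (K : DKnot ι) : KnotFn (K.jones F) ∧ (K.jones F = unknotJ ↔ K.Trivial) := by
  induction K with
  | unknot => exact ⟨knotFn_unknot, fun _ => trivial, fun _ => rfl⟩
  | seed i => exact ⟨hF i, fun h => hne i h, fun h => h.elim⟩
  | cable p ε hp hε K ih =>
    obtain ⟨h1, h2⟩ := ih
    refine ⟨h1.cable p ε, ?_⟩
    change cableJ p ε (K.jones F) = unknotJ ↔ K.Trivial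
    rw [← h2]
    constructor
    · intro h
      apply cable_injective (show p ≠ 0 by omega) ε h1 knotFn_unknot
      rw [h, cableJ_one p ε hε]
    · intro h
      rw [h, cableJ_one p ε hε]
  | double m ε hε K ih =>
    obtain ⟨h1, h2⟩ := ih
    refine ⟨h1.double m hε, ?_⟩
    change doubleJ m ε (K.jones F) = unknotJ ↔ m = 0 ∧ K.Trivial
    rw [← h2]
    constructor
    · intro h
      exact double_same hε h1.one unknotJ_one h1.poly PF.unknot h1.two knotFn_unknot.two
        (fun N => by rw [h, double_unknot])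
    · rintro ⟨rfl, h⟩
      rw [h, double_unknot]

/-- two odd functions which agree on positive integers are equal -/
theorem KnotFn.ext {J J' : ℤ → ℚ⟦X⟧} (h : KnotFn J) (h' : KnotFn J')
    (he : ∀ N : ℕ, J N = J' N) : J = J' := by
  funext N
  obtain ⟨n, rfl | rfl⟩ := N.eq_nat_or_neg
  · exact he n
  · rw [h.odd, h'.odd, he]

end

end Pool.Agent.H765.ST
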